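import Pool.Agent.Helper310.Generic

set_option autoImplicit false

namespace Pool.Agent.Helper310.Count

open MvPolynomial Matrix Pool.Agent.Helper310.Generic Cardinal

universe u

lemma fin_basis {κ E : Type*} [Group E] (hE : Group.FG E) (b : FreeGroupBasis κ E) :
    Finite κ := by
  obtain ⟨T, hT⟩ := hE.out
  have h1 : Function.Injective (fun (f : E →* ℤˣ) (t : T) => f t) := by
    intro f g hfg
    apply MonoidHom.eq_of_eqOn_dense hT
    intro t ht
    exact congrFun hfg ⟨t, ht⟩
  have h2 : Finite (E →* ℤˣ) := Finite.of_injective _ h1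
  have h3 : Finite (κ → ℤˣ) := Finite.of_equiv _ b.lift.symm
  by_contra hcon
  rw [not_finite_iff_infinite] at hcon
  have h5 : Nontrivial ℤˣ := ⟨1, -1, by decide⟩
  have h4 : Infinite (κ → ℤˣ) := Pi.infinite_of_left
  exact not_finite (κ → ℤˣ)

lemma exists_fin_basis {G : Type u} [Group G] (hfree : ∀ H : Subgroup G, H.FG → IsFreeGroup H)
    (E : Subgroup G) (hE : E.FG) : ∃ m : ℕ, Nonempty (FreeGroupBasis (Fin m) E) := by
  obtain ⟨κ, ⟨b⟩⟩ := (hfree E hE).nonempty_basis
  have : Finite κ := fin_basis ((Group.fg_iff_subgroup_fg E).2 hE) b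
  exact ⟨Nat.card κ, ⟨b.reindex (Finite.equivFin κ)⟩⟩

variable {G : Type u} [Group G]

/-- Distinct elements have distinct generic matrices. -/
lemma eq_of_mk_eq (hfree : ∀ H : Subgroup G, H.FG → IsFreeGroup H) {g h : G}
    (hgh : ∀ i j : Fin 2, (X (g, i, j) - X (h, i, j) : MvPolynomial (Var G) ℚ) ∈ relIdeal G) :
    g = h := by
  classical
  have h1 : ∀ ij : Fin 2 × Fin 2, ∃ E : Subgroup G, E.FG ∧ ∀ u, IsRep E u →
      eval u (X (g, ij.1, ij.2) - X (h, ij.1, ij.2)) = 0 := fun ij => hgh ij.1 ij.2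
  choose E hE hEu using h1
  let E' : Subgroup G := (⨆ ij, E ij) ⊔ Subgroup.closure (({g, h} : Finset G) : Set G)
  have hE' : E'.FG := (Subgroup.FG.iSup E hE).sup ⟨_, rfl⟩
  have hg : g ∈ E' := (le_sup_right : _ ≤ E') (Subgroup.subset_closure (by simp))
  have hh : h ∈ E' := (le_sup_right : _ ≤ E') (Subgroup.subset_closure (by simp))
  obtain ⟨m, ⟨b⟩⟩ := exists_fin_basis hfree E' hE'
  by_contra hne
  have hw : b.repr ((⟨g, hg⟩ : E')⁻¹ * ⟨h, hh⟩) ≠ 1 := by
    intro hcon
    rw [map_eq_one_iff b.repr b.repr.injective] at hcon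
    exact hne (congrArg Subtype.val (inv_mul_eq_one.1 hcon))
  obtain ⟨σ, hσ⟩ := Linear.exists_rep _ hw
  let u : Var G → ℚ := fun v => if hv : v.1 ∈ E' then (σ (b.repr ⟨v.1, hv⟩)).1 v.2.1 v.2.2 else 0
  have hu : IsRep E' u := by
    refine ⟨σ.comp b.repr.toMonoidHom, fun g i j => ?_⟩
    show (if hv : (g : G) ∈ E' then (σ (b.repr ⟨(g : G), hv⟩)).1 i j else 0) = _
    rw [dif_pos g.2]
    rfl
  have hug : ∀ i j, u (g, i, j) = (σ (b.repr ⟨g, hg⟩)).1 i j := fun i j => dif_pos hg
  have huh : ∀ i j, u (h, i, j) = (σ (b.repr ⟨h, hh⟩)).1 i j := fun i j => dif_pos hh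
  have h2 : σ (b.repr ⟨g, hg⟩) = σ (b.repr ⟨h, hh⟩) := by
    apply Matrix.SpecialLinearGroup.ext
    intro i j
    have h3 := hEu (i, j) u (hu.mono ((le_iSup E (i, j)).trans le_sup_left))
    rw [map_sub, eval_X, eval_X, hug, huh] at h3
    exact sub_eq_zero.1 h3
  apply hσ
  rw [map_mul, map_inv, map_mul, map_inv, h2, inv_mul_cancel]

lemma eval_comp_aeval {S T : Type*} (c : S → MvPolynomial T ℚ) (a : T → ℚ)
    (Q : MvPolynomial S ℚ) : eval (fun t => eval a (c t)) Q = eval a (aeval c Q) := by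
  induction Q using MvPolynomial.induction_on with
  | C r => simp
  | add p q hp hq => rw [map_add, map_add, hp, hq, map_add]
  | mul_X p v hp => rw [map_mul, map_mul, hp, map_mul]; simp

/-- abstract form of the countability theorem -/
lemma countable_core (hfree : ∀ H : Subgroup G, H.FG → IsFreeGroup H) {A : Type u} [CommRing A]
    [IsDomain A] [Algebra ℚ A] (x : Var G → A)
    (hker : ∀ p : MvPolynomial (Var G) ℚ, aeval x p = 0 ↔ p ∈ relIdeal G)
    (D : Set G) (s : ℕ)
    (hD : ∀ A : Finset G, (A : Set G) ⊆ D → ∃ E : Subgroup G, (A : Set G) ⊆ E ∧ E.FG ∧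
      ∃ m ≤ s, Nonempty (FreeGroupBasis (Fin m) E)) : D.Countable := by
  classical
  let XD : Set A := x '' {v | v.1 ∈ D}
  obtain ⟨T, hT⟩ := (AlgebraicIndependent.matroid ℚ A).exists_isBasis XD
  rw [AlgebraicIndependent.matroid_isBasis_iff] at hT
  obtain ⟨hT1, hT2, hT3⟩ := hT
  have hT2' : ∀ t ∈ T, ∃ v : Var G, v.1 ∈ D ∧ x v = t := by
    intro t ht
    obtain ⟨v, h1, h2⟩ := hT2 ht
    exact ⟨v, h1, h2⟩
  choose! v hvD hv using hT2'
  -- finite subsets of `T` have bounded size
  have hbound : ∀ T₀ : Finset A, (T₀ : Set A) ⊆ T → T₀.card ≤ 4 * s := by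
    intro T₀ hT₀
    obtain ⟨E, hAE, hE, m, hms, ⟨b⟩⟩ := hD (T₀.image (fun t => (v t).1)) (by
      intro g hg
      rw [Finset.coe_image] at hg
      obtain ⟨t, ht, rfl⟩ := hg
      exact hvD t (hT₀ ht))
    have hmem : ∀ t : T₀, (v t).1 ∈ E := fun t => hAE (by
      rw [Finset.coe_image]
      exact ⟨t, t.2, rfl⟩)
    have hind : AlgebraicIndependent ℚ (fun t : T₀ => genVal b (v t)) := by
      have hT₀' : AlgebraicIndependent ℚ (fun t : T₀ => (t : A)) :=
        hT1.comp (fun t : T₀ => (⟨t, hT₀ t.2⟩ : T)) (fun t t' htt => by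
          have := congrArg Subtype.val htt
          exact Subtype.ext this)
      rw [algebraicIndependent_iff] at hT₀' ⊢
      intro Q hQ
      apply hT₀' Q
      have h1 : (rename (fun t : T₀ => v t) Q) ∈ relIdeal G := by
        refine ⟨E, hE, fun u hu => ?_⟩
        obtain ⟨a, ha⟩ := exists_eval b hu
        rw [eval_rename]
        have h2 : (u ∘ fun t : T₀ => v t) = fun t : T₀ => eval a (genVal b (v t)) := by
          funext t
          exact ha (v t) (hmem t)
        rw [h2, eval_comp_aeval, hQ, map_zero]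
      rw [← hker, aeval_rename] at h1
      have h2 : (x ∘ fun t : T₀ => v t) = fun t : T₀ => (t : A) := by
        funext t
        exact hv t (hT₀ t.2)
      rwa [h2] at h1
    have h6 := hind.lift_cardinalMk_le_trdeg
    rw [MvPolynomial.trdeg_of_isDomain] at h6
    simp only [Cardinal.mk_fintype, Fintype.card_coe, Cardinal.lift_natCast, Fintype.card_prod,
      Fintype.card_fin] at h6
    have h7 : T₀.card ≤ m * 4 := by exact_mod_cast h6
    omega
  have hTfin : T.Finite := by
    by_contra hinf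
    obtain ⟨T₀, h1, h2⟩ := Set.Infinite.exists_subset_card_eq hinf (4 * s + 1)
    have := hbound T₀ h1
    omega
  have hTfin' : Finite T := hTfin
  have hcount : Countable (Algebra.adjoin ℚ T) := by
    have h1 : Function.Surjective (fun Q : MvPolynomial T ℚ =>
        (⟨aeval (fun t : T => (t : A)) Q, by
          rw [Algebra.adjoin_eq_range]
          exact ⟨Q, rfl⟩⟩ : Algebra.adjoin ℚ T)) := by
      rintro ⟨y, hy⟩
      rw [Algebra.adjoin_eq_range] at hy
      obtain ⟨Q, hQ⟩ := hy
      exact ⟨Q, Subtype.ext hQ⟩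
    have h2 : Countable (MvPolynomial T ℚ) := by
      rw [← Cardinal.mk_le_aleph0_iff]
      refine (MvPolynomial.cardinalMk_le_max_lift (σ := T) (R := ℚ)).trans ?_
      simp
    exact h1.countable
  have h7 : XD.Countable := (Algebraic.countable (Algebra.adjoin ℚ T) A).mono hT3
  have h8 : Countable XD := h7.to_subtype
  have h9 : Function.Injective (fun (g : D) (ij : Fin 2 × Fin 2) =>
      (⟨x (g, ij.1, ij.2), ⟨_, g.2, rfl⟩⟩ : XD)) := by
    intro g h hgh
    apply Subtype.ext
    apply eq_of_mk_eq hfree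
    intro i j
    rw [← hker, map_sub, aeval_X, aeval_X, sub_eq_zero]
    exact congrArg Subtype.val (congrFun hgh (i, j))
  have h10 : Countable D := h9.countable
  exact Set.countable_coe_iff.1 h10

/-- A set of elements such that all its finite subsets lie in free subgroups of bounded rank is
countable. -/
theorem countable_of_bounded (hfree : ∀ H : Subgroup G, H.FG → IsFreeGroup H) (D : Set G) (s : ℕ)
    (hD : ∀ A : Finset G, (A : Set G) ⊆ D → ∃ E : Subgroup G, (A : Set G) ⊆ E ∧ E.FG ∧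
      ∃ m ≤ s, Nonempty (FreeGroupBasis (Fin m) E)) : D.Countable := by
  have hprime := relIdeal_isPrime hfree
  refine countable_core hfree (A := MvPolynomial (Var G) ℚ ⧸ relIdeal G)
    (fun v => Ideal.Quotient.mk (relIdeal G) (X v)) ?_ D s hD
  intro p
  have h1 : aeval (fun v => Ideal.Quotient.mk (relIdeal G) (X v)) p =
      Ideal.Quotient.mk (relIdeal G) p := by
    have h2 : (Ideal.Quotient.mkₐ ℚ (relIdeal G)) =
        aeval (fun v => Ideal.Quotient.mk (relIdeal G) (X v)) := by
      ext v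
      rw [aeval_X]
      rfl
    rw [← h2]
    rfl
  rw [h1, Ideal.Quotient.eq_zero_iff_mem]

end Pool.Agent.Helper310.Count
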