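import Mathlib

set_option autoImplicit false

namespace Pool.Agent.Helper310.Index

open Function

variable {ι : Type*} {F : Type*} [Group F]

lemma basis_closure (b : FreeGroupBasis ι F) : Subgroup.closure (Set.range b) = ⊤ := by
  have h : Set.range b = b.repr.symm '' (Set.range (FreeGroup.of : ι → FreeGroup ι)) := by
    rw [← Set.range_comp]; rfl
  rw [h]
  have := (b.repr.symm.toMonoidHom.map_closure (Set.range (FreeGroup.of : ι → FreeGroup ι)))
  rw [FreeGroup.closure_range_of] at this
  have h2 : Subgroup.map b.repr.symm.toMonoidHom ⊤ = ⊤ :=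
    Subgroup.map_top_of_surjective _ b.repr.symm.surjective
  rw [h2] at this
  exact this.symm

variable {X : Type*} [MulAction F X]

/-- twisted permutation -/
def tw (g : F) (u : X → ZMod 2) : Equiv.Perm (X × ZMod 2) where
  toFun p := (g • p.1, p.2 + u p.1)
  invFun p := (g⁻¹ • p.1, p.2 - u (g⁻¹ • p.1))
  left_inv := by rintro ⟨x, e⟩; simp
  right_inv := by rintro ⟨x, e⟩; simp

/-- lift of the action to the product with `ZMod 2`. -/
noncomputable def Tw (b : FreeGroupBasis ι F) (v : ι → X → ZMod 2) :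
    F →* Equiv.Perm (X × ZMod 2) :=
  b.lift (fun i => tw (b i) (v i))

lemma Tw_basis (b : FreeGroupBasis ι F) (v : ι → X → ZMod 2) (i : ι) :
    Tw b v (b i) = tw (b i) (v i) := by
  simp [Tw, FreeGroupBasis.lift]

lemma Tw_prop (b : FreeGroupBasis ι F) (v : ι → X → ZMod 2) (g : F) :
    ∀ (x : X) (e d : ZMod 2), (Tw b v g (x, e)).1 = g • x ∧
      (Tw b v g (x, e + d)).2 = (Tw b v g (x, e)).2 + d := by
  have hg : g ∈ Subgroup.closure (Set.range b) := by rw [basis_closure]; trivial
  induction hg using Subgroup.closure_induction with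
  | mem y hy =>
    obtain ⟨i, rfl⟩ := hy
    intro x e d
    rw [Tw_basis]
    exact ⟨rfl, by show e + d + v i x = e + v i x + d; ring⟩
  | one => intro x e d; simp
  | mul y z _ _ hy hz =>
    intro x e d
    have key : ∀ e, Tw b v z (x, e) = (z • x, (Tw b v z (x, e)).2) := fun e => by
      apply Prod.ext
      · exact (hz x e 0).1
      · rfl
    rw [map_mul, Equiv.Perm.mul_apply, Equiv.Perm.mul_apply, key e, key (e + d),
      (hz x e d).2]
    exact ⟨by rw [(hy _ _ 0).1, mul_smul], (hy _ _ _).2⟩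
  | inv y _ hy =>
    intro x e d
    have key : ∀ q : X × ZMod 2, Tw b v y⁻¹ q = (y⁻¹ • q.1, q.2 - (Tw b v y (y⁻¹ • q.1, 0)).2) := by
      intro q
      rw [map_inv, Equiv.Perm.inv_eq_iff_eq]
      apply Prod.ext
      · rw [(hy _ _ 0).1, smul_inv_smul]
      · have := (hy (y⁻¹ • q.1) 0 (q.2 - (Tw b v y (y⁻¹ • q.1, 0)).2)).2
        rw [zero_add] at this
        rw [this]; ring
    rw [key, key]
    exact ⟨rfl, by ring⟩

lemma Tw_eq (b : FreeGroupBasis ι F) (v : ι → X → ZMod 2) (g : F) (x : X) (e : ZMod 2) :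
    Tw b v g (x, e) = (g • x, (Tw b v g (x, 0)).2 + e) := by
  apply Prod.ext
  · exact (Tw_prop b v g x e 0).1
  · have := (Tw_prop b v g x 0 e).2
    rwa [zero_add] at this

/-- **Index bound.** -/
theorem index_le (b : FreeGroupBasis ι F) {s t : ι} (hst : s ≠ t) (H : Subgroup F)
    (hH : H.index ≠ 0) (T : Finset F) (hT : Subgroup.closure (T : Set F) = H) :
    H.index ≤ T.card := by
  classical
  have : Finite (F ⧸ H) := Subgroup.index_ne_zero_iff_finite.1 hH
  have : Fintype (F ⧸ H) := Fintype.ofFinite _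
  have hcard : Fintype.card (F ⧸ H) = H.index := by
    rw [Subgroup.index, Nat.card_eq_fintype_card]
  let o : F ⧸ H := ((1 : F) : F ⧸ H)
  let V : (Bool → F ⧸ H → ZMod 2) → ι → F ⧸ H → ZMod 2 := fun u i =>
    if i = s then u true else if i = t then u false else 0
  have hVs : ∀ u, V u s = u true := fun u => by simp [V]
  have hVt : ∀ u, V u t = u false := fun u => by simp [V, hst.symm]
  -- invariants
  let Φ : (Bool → F ⧸ H → ZMod 2) → (T → ZMod 2) × (F ⧸ H → ZMod 2) := fun u =>
    (fun h => (Tw b (V u) h.1 (o, 0)).2, fun x => (Tw b (V u) x.out (o, 0)).2)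
  have hinj : Injective Φ := by
    intro u u' huu
    have h1 : ∀ h ∈ T, (Tw b (V u) h (o, 0)).2 = (Tw b (V u') h (o, 0)).2 := fun h hh =>
      congrFun (congrArg Prod.fst huu) ⟨h, hh⟩
    have h2 : ∀ x : F ⧸ H, (Tw b (V u) x.out (o, 0)).2 = (Tw b (V u') x.out (o, 0)).2 :=
      fun x => congrFun (congrArg Prod.snd huu) x
    have hfix : ∀ h ∈ H, h • o = o := by
      intro h hh
      show ((h * 1 : F) : F ⧸ H) = ((1 : F) : F ⧸ H)
      rw [mul_one, eq_comm, QuotientGroup.eq, inv_one, one_mul]
      exact hh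
    -- equality on H
    have h3 : ∀ h ∈ H, ∀ e, Tw b (V u) h (o, e) = Tw b (V u') h (o, e) := by
      intro h hh
      have hh' : h ∈ Subgroup.closure (T : Set F) := hT.symm ▸ hh
      have hTH : ∀ y ∈ Subgroup.closure (T : Set F), y ∈ H := fun y hy => hT ▸ hy
      induction hh' using Subgroup.closure_induction with
      | mem y hy =>
        intro e
        rw [Tw_eq, Tw_eq b (V u'), h1 y hy]
      | one => intro e; simp
      | mul y z hy hz ihy ihz =>
        intro e
        rw [map_mul, map_mul, Equiv.Perm.mul_apply, Equiv.Perm.mul_apply, ihz (hTH z hz),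
          Tw_eq b (V u') z, hfix z (hTH z hz), ihy (hTH y hy)]
      | inv y hy ihy =>
        intro e
        rw [map_inv, Equiv.Perm.inv_eq_iff_eq]
        have hq : Tw b (V u') y⁻¹ (o, e) = (o, (Tw b (V u') y⁻¹ (o, e)).2) := by
          apply Prod.ext
          · rw [(Tw_prop b _ y⁻¹ o e 0).1, hfix _ (H.inv_mem (hTH y hy))]
          · rfl
        rw [hq, ihy (hTH y hy), ← hq, map_inv]
        simp
    -- equality everywhere at o
    have h4 : ∀ g : F, ∀ e, Tw b (V u) g (o, e) = Tw b (V u') g (o, e) := by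
      intro g e
      let x : F ⧸ H := ((g : F) : F ⧸ H)
      have hx : ((x.out : F) : F ⧸ H) = ((g : F) : F ⧸ H) := QuotientGroup.out_eq' x
      have hmem : (x.out)⁻¹ * g ∈ H := QuotientGroup.eq.1 hx
      have hg : g = x.out * ((x.out)⁻¹ * g) := by group
      generalize hk : (x.out)⁻¹ * g = k at hmem hg
      rw [hg, map_mul, map_mul, Equiv.Perm.mul_apply, Equiv.Perm.mul_apply, h3 _ hmem,
        Tw_eq b (V u') k, hfix _ hmem, Tw_eq b (V u) x.out,
        Tw_eq b (V u') x.out, h2 x]
    have h5 : ∀ (i : ι) (x : F ⧸ H), V u i x = V u' i x := by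
      intro i x
      have ho : (x.out : F) • o = x := by
        show (((x.out : F) * 1 : F) : F ⧸ H) = x
        rw [mul_one]; exact QuotientGroup.out_eq' x
      have e1 := h4 (b i * x.out) 0
      rw [map_mul, map_mul, Equiv.Perm.mul_apply, Equiv.Perm.mul_apply, h4,
        Tw_eq b (V u') x.out, ho, Tw_basis, Tw_basis] at e1
      have e2 := congrArg Prod.snd e1
      simpa [tw] using e2
    funext c x
    cases c
    · rw [← hVt u, ← hVt u']; exact h5 t x
    · rw [← hVs u, ← hVs u']; exact h5 s x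
  have hle := Fintype.card_le_of_injective Φ hinj
  rw [Fintype.card_prod, Fintype.card_fun, Fintype.card_fun, Fintype.card_fun, Fintype.card_coe,
    ZMod.card, Fintype.card_bool, ← pow_mul, ← pow_add] at hle
  have := (Nat.pow_le_pow_iff_right (by norm_num : 1 < 2)).1 hle
  rw [hcard] at this
  omega

end Pool.Agent.Helper310.Index
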