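import Pool.Agent.Helper310.Step
import Pool.Agent.Helper310.Index

set_option autoImplicit false

namespace Pool.Agent.Helper310.Ctbl

open Function Pool.Agent.Helper310.Step Pool.Agent.Helper310.Index

universe u

lemma fg_map {A B : Type*} [Group A] [Group B] (f : A →* B) {H : Subgroup A} (h : H.FG) :
    (H.map f).FG := by
  classical
  obtain ⟨T, rfl⟩ := h
  exact ⟨T.image f, by rw [Finset.coe_image, MonoidHom.map_closure]⟩

lemma fg_subgroupOf {A : Type*} [Group A] {N F : Subgroup A} (hNF : N ≤ F) (h : N.FG) :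
    (N.subgroupOf F).FG := by
  have h1 : Group.FG N := (Group.fg_iff_subgroup_fg N).2 h
  have h2 : Group.FG (N.subgroupOf F) :=
    Group.fg_of_surjective (f := (Subgroup.subgroupOfEquivOfLe hNF).symm.toMonoidHom)
      (Subgroup.subgroupOfEquivOfLe hNF).symm.surjective
  exact (Group.fg_iff_subgroup_fg _).1 h2

/-- transfer of the step lemma to a free subgroup `F` of `G`. -/
lemma step_sub {G : Type u} [Group G] (F N : Subgroup G) (hF : IsFreeGroup F) (hFfg : F.FG)
    (hNF : N ≤ F) (hN : N.FG) (hidx : N.relIndex F = 0) (x : G) (hxF : x ∈ F) (hx : x ∉ N) :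
    ∃ N' : Subgroup G, N ≤ N' ∧ N' ≤ F ∧ x ∉ N' ∧ N'.FG ∧
      ∀ K : Subgroup G, N' ≤ K → x ∈ K → F ≤ K := by
  obtain ⟨ι, ⟨b⟩⟩ := hF.nonempty_basis
  obtain ⟨N', h1, h2, h3⟩ := step b (N.subgroupOf F) (fg_subgroupOf hNF hN) hidx ⟨x, hxF⟩
    (by rw [Subgroup.mem_subgroupOf]; exact hx)
  have hfi : N'.FiniteIndex := ⟨h3.ne_zero⟩
  have hgfg : Group.FG F := (Group.fg_iff_subgroup_fg F).2 hFfg
  have hN'fg : N'.FG := (Group.fg_iff_subgroup_fg N').1 inferInstance
  refine ⟨N'.map F.subtype, ?_, ?_, ?_, ?_, ?_⟩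
  · intro y hy
    exact ⟨⟨y, hNF hy⟩, h1 hy, rfl⟩
  · rintro _ ⟨y, _, rfl⟩
    exact y.2
  · rintro ⟨y, hy, hyx⟩
    exact h2 (by
      have : y = ⟨x, hxF⟩ := Subtype.ext hyx
      rwa [this] at hy)
  · exact fg_map _ hN'fg
  · intro K hK hxK
    have hle : N' ≤ K.subgroupOf F := by
      intro y hy
      exact hK ⟨y, hy, rfl⟩
    have hne : N' ≠ K.subgroupOf F := by
      intro h
      exact h2 (h ▸ hxK)
    have hmul := Subgroup.relIndex_mul_index hle
    have hp : N'.index.Prime := h3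
    rw [← hmul] at hp
    rcases Nat.prime_mul_iff.1 hp with h | h
    · have := Subgroup.index_eq_one.1 h.2
      intro y hy
      have hy' : (⟨y, hy⟩ : F) ∈ K.subgroupOf F := by rw [this]; trivial
      exact hy'
    · exact absurd (le_antisymm hle (Subgroup.relIndex_eq_one.1 h.2)) hne

/-- a free group with two non commuting elements has two distinct basis elements. -/
lemma exists_ne_basis {ι F : Type*} [Group F] (b : FreeGroupBasis ι F)
    {x y : F} (hxy : x * y ≠ y * x) : ∃ s t : ι, s ≠ t := by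
  by_contra hcon
  push Not at hcon
  apply hxy
  have hx : x ∈ Subgroup.closure (Set.range b) := by rw [basis_closure]; trivial
  have hy : y ∈ Subgroup.closure (Set.range b) := by rw [basis_closure]; trivial
  have hcomm : ∀ x ∈ Set.range b, ∀ y ∈ Set.range b, x * y = y * x := by
    rintro _ ⟨i, rfl⟩ _ ⟨j, rfl⟩
    rw [hcon i j]
  exact Subgroup.closure_induction₂ (p := fun x y _ _ => x * y = y * x)
    (fun x y hx hy => hcomm x hx y hy) (by simp) (by simp)
    (fun x y z _ _ _ h1 h2 => by rw [mul_assoc, h2, ← mul_assoc, h1, mul_assoc])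
    (fun x y z _ _ _ h1 h2 => by rw [← mul_assoc, h1, mul_assoc, h2, mul_assoc])
    (fun x y _ _ h => by
      have : Commute x y := h
      exact this.inv_left)
    (fun x y _ _ h => by
      have : Commute x y := h
      exact this.inv_right) hx hy

/-- If `G` is not finitely generated, each finitely generated subgroup has infinite index in some
finitely generated subgroup. -/
lemma exists_overgroup {G : Type u} [Group G] (hfree : ∀ H : Subgroup G, H.FG → IsFreeGroup H)
    {a b : G} (hab : a * b ≠ b * a) (hG : ¬ (⊤ : Subgroup G).FG) (N : Subgroup G) (hN : N.FG) :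
    ∃ F : Subgroup G, F.FG ∧ N ≤ F ∧ N.relIndex F = 0 := by
  classical
  by_contra hcon
  push Not at hcon
  obtain ⟨T, hT⟩ := id hN
  -- the index bound
  have hbound : ∀ F : Subgroup G, F.FG → N ≤ F → a ∈ F → b ∈ F → N.relIndex F ≤ T.card := by
    intro F hF hNF ha hb
    obtain ⟨ι, ⟨β⟩⟩ := (hfree F hF).nonempty_basis
    obtain ⟨s, t, hst⟩ := exists_ne_basis β (x := (⟨a, ha⟩ : F)) (y := (⟨b, hb⟩ : F))
      (fun h => hab (congrArg Subtype.val h))
    have hTF : ∀ g ∈ T, g ∈ F := fun g hg => hNF (hT ▸ Subgroup.subset_closure hg)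
    have h1 : Subgroup.closure ((T.attach.image (fun g => (⟨g.1, hTF g.1 g.2⟩ : F)) : Finset F) :
        Set F) = N.subgroupOf F := by
      apply Subgroup.map_injective F.subtype_injective
      rw [MonoidHom.map_closure, Subgroup.subgroupOf_map_subtype, inf_eq_left.2 hNF, ← hT]
      congr 1
      ext g
      simp only [Finset.coe_image, Set.mem_image, Finset.mem_coe, Finset.mem_attach, true_and]
      constructor
      · rintro ⟨_, ⟨⟨g, hg⟩, rfl⟩, rfl⟩
        exact hg
      · intro hg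
        exact ⟨⟨g, hTF g hg⟩, ⟨⟨g, hg⟩, rfl⟩, rfl⟩
    have h2 := index_le β hst (N.subgroupOf F) (hcon F hF hNF) _ h1
    calc N.relIndex F ≤ _ := h2
      _ ≤ T.attach.card := Finset.card_image_le
      _ = T.card := Finset.card_attach
  -- choose one of maximal index
  let P : ℕ → Prop := fun n => ∃ F : Subgroup G, F.FG ∧ N ≤ F ∧ a ∈ F ∧ b ∈ F ∧ N.relIndex F = n
  have hP : ∃ n, P n := by
    let F : Subgroup G := N ⊔ Subgroup.closure ({a, b} : Finset G)
    have ha : a ∈ Subgroup.closure (({a, b} : Finset G) : Set G) :=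
      Subgroup.subset_closure (by simp)
    have hb : b ∈ Subgroup.closure (({a, b} : Finset G) : Set G) :=
      Subgroup.subset_closure (by simp)
    exact ⟨_, F, hN.sup ⟨_, rfl⟩, le_sup_left, (le_sup_right : _ ≤ F) ha,
      (le_sup_right : _ ≤ F) hb, rfl⟩
  obtain ⟨m, hm⟩ := hP
  have hmle : ∀ n, P n → n ≤ T.card := by
    rintro n ⟨F, h1, h2, h3, h4, rfl⟩
    exact hbound F h1 h2 h3 h4
  obtain ⟨F, hF, hNF, ha, hb, hidx⟩ := Nat.findGreatest_spec (P := P) (hmle m hm) hm
  have hmax : ∀ n, P n → n ≤ N.relIndex F := by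
    intro n hn
    rw [hidx]
    exact Nat.le_findGreatest (hmle n hn) hn
  apply hG
  have hFtop : F = ⊤ := by
    rw [eq_top_iff]
    intro y _
    let F' : Subgroup G := F ⊔ Subgroup.closure (({y} : Finset G) : Set G)
    have hFF' : F ≤ F' := le_sup_left
    have hF' : F'.FG := hF.sup ⟨_, rfl⟩
    have hy : y ∈ F' := (le_sup_right : _ ≤ F') (Subgroup.subset_closure (by simp))
    have hle := hmax _ ⟨F', hF', hNF.trans hFF', hFF' ha, hFF' hb, rfl⟩
    have hmul := Subgroup.relIndex_mul_relIndex N F F' hNF hFF'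
    have h0 := hcon F hF hNF
    have h0' := hcon F' hF' (hNF.trans hFF')
    have h1 : F.relIndex F' = 1 := by
      rw [← hmul] at hle h0'
      have h2 : F.relIndex F' ≠ 0 := fun h => h0' (by rw [h, mul_zero])
      have h3 : N.relIndex F * F.relIndex F' ≤ N.relIndex F * 1 := by rwa [mul_one]
      have h4 := Nat.le_of_mul_le_mul_left h3 (Nat.pos_of_ne_zero h0)
      omega
    exact (Subgroup.relIndex_eq_one.1 h1) hy
  rw [← hFtop]
  exact hF

/-- Zorn step. -/
lemma exists_coatom {G : Type u} [Group G] (x : G) (M₀ : Subgroup G) (hx : x ∉ M₀)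
    (htop : ∀ K : Subgroup G, M₀ ≤ K → x ∈ K → K = ⊤) :
    ∃ M : Subgroup G, IsCoatom M ∧ x ∉ M := by
  obtain ⟨M, hM₀M, hM⟩ := zorn_le_nonempty₀ {K : Subgroup G | x ∉ K} (by
    intro c hc hchain K hK
    refine ⟨sSup c, ?_, fun z hz => le_sSup hz⟩
    intro hxs
    rw [Subgroup.mem_sSup_of_directedOn ⟨K, hK⟩ hchain.directedOn] at hxs
    obtain ⟨L, hL, hxL⟩ := hxs
    exact hc hL hxL) M₀ hx
  refine ⟨M, ⟨?_, ?_⟩, hM.prop⟩
  · intro h
    exact hM.prop (h ▸ Subgroup.mem_top x)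
  · intro K hMK
    apply htop K (hM₀M.trans hMK.le)
    by_contra hxK
    exact hMK.not_ge (hM.le_of_ge hxK hMK.le)

lemma frattini_eq_bot_of {G : Type u} [Group G]
    (h : ∀ x : G, x ≠ 1 → ∃ M₀ : Subgroup G, x ∉ M₀ ∧ ∀ K : Subgroup G, M₀ ≤ K → x ∈ K → K = ⊤) :
    frattini G = ⊥ := by
  rw [eq_bot_iff]
  intro x hx
  by_contra hx1
  obtain ⟨M₀, h1, h2⟩ := h x (by simpa using hx1)
  obtain ⟨M, hM, hxM⟩ := exists_coatom x M₀ h1 h2
  exact hxM (frattini_le_coatom hM hx)

/-- The main step for one element `y`. -/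
lemma main_step {G : Type u} [Group G] (hfree : ∀ H : Subgroup G, H.FG → IsFreeGroup H)
    {a b : G} (hab : a * b ≠ b * a) (hG : ¬ (⊤ : Subgroup G).FG) (x : G) (y : G)
    (N : Subgroup G) (hN : N.FG) (hx : x ∉ N) :
    ∃ N' : Subgroup G, N'.FG ∧ x ∉ N' ∧ N ≤ N' ∧ ∀ K : Subgroup G, N' ≤ K → x ∈ K → y ∈ K := by
  classical
  obtain ⟨F₀, hF₀, hNF₀, hidx₀⟩ := exists_overgroup hfree hab hG N hN
  let F : Subgroup G := F₀ ⊔ Subgroup.closure (({x, y} : Finset G) : Set G)
  have hF₀F : F₀ ≤ F := le_sup_left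
  have hF : F.FG := hF₀.sup ⟨_, rfl⟩
  have hxF : x ∈ F := (le_sup_right : _ ≤ F) (Subgroup.subset_closure (by simp))
  have hyF : y ∈ F := (le_sup_right : _ ≤ F) (Subgroup.subset_closure (by simp))
  have hidx : N.relIndex F = 0 := by
    rw [← Subgroup.relIndex_mul_relIndex N F₀ F hNF₀ hF₀F, hidx₀, zero_mul]
  obtain ⟨N', h1, _, h3, h4, h5⟩ := step_sub F N (hfree F hF) hF (hNF₀.trans hF₀F) hN hidx x hxF hx
  exact ⟨N', h4, h3, h1, fun K hK hxK => h5 K hK hxK hyF⟩

/-- Every countable nonabelian group all of whose finitely generated subgroups are free has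
trivial Frattini subgroup. -/
theorem result {G : Type u} [Group G] [Countable G]
    (hfree : ∀ H : Subgroup G, H.FG → IsFreeGroup H)
    (hna : ∃ a b : G, a * b ≠ b * a) : frattini G = ⊥ := by
  obtain ⟨a, b, hab⟩ := hna
  apply frattini_eq_bot_of
  intro x hx1
  by_cases hG : (⊤ : Subgroup G).FG
  · -- `G` is a finitely generated free group
    have hinf : (⊥ : Subgroup G).relIndex ⊤ = 0 := by
      by_contra hne
      obtain ⟨ι, ⟨β⟩⟩ := (hfree ⊤ hG).nonempty_basis
      obtain ⟨s, t, hst⟩ := exists_ne_basis β (x := (⟨a, trivial⟩ : (⊤ : Subgroup G)))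
        (y := (⟨b, trivial⟩ : (⊤ : Subgroup G))) (fun h => hab (congrArg Subtype.val h))
      have h1 := index_le β hst ((⊥ : Subgroup G).subgroupOf ⊤) hne ∅
        (by rw [Finset.coe_empty, Subgroup.closure_empty, Subgroup.bot_subgroupOf])
      rw [Finset.card_empty] at h1
      exact hne (Nat.le_zero.1 h1)
    obtain ⟨N', h1, _, h3, h4, h5⟩ := step_sub ⊤ ⊥ (hfree ⊤ hG) hG bot_le Subgroup.FG.bot hinf x
      (Subgroup.mem_top x) (by simpa using hx1)
    exact ⟨N', h3, fun K hK hxK => eq_top_iff.2 (h5 K hK hxK)⟩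
  · obtain ⟨y, hy⟩ := exists_surjective_nat G
    have hstep : ∀ (n : ℕ) (N : {N : Subgroup G // N.FG ∧ x ∉ N}), ∃ N' : {N : Subgroup G // N.FG ∧ x ∉ N},
        N.1 ≤ N'.1 ∧ ∀ K : Subgroup G, N'.1 ≤ K → x ∈ K → y n ∈ K := by
      rintro n ⟨N, hN, hxN⟩
      obtain ⟨N', h1, h2, h3, h4⟩ := main_step hfree hab hG x (y n) N hN hxN
      exact ⟨⟨N', h1, h2⟩, h3, h4⟩
    choose f hf1 hf2 using hstep
    let seq : ℕ → {N : Subgroup G // N.FG ∧ x ∉ N} := fun n => Nat.rec
      ⟨⊥, Subgroup.FG.bot, by simpa using hx1⟩ (fun n N => f n N) n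
    have hmono : Monotone (fun n => (seq n).1) := monotone_nat_of_le_succ (fun n => hf1 n (seq n))
    refine ⟨⨆ n, (seq n).1, ?_, ?_⟩
    · intro hx
      rw [Subgroup.mem_iSup_of_directed (hmono.directed_le)] at hx
      obtain ⟨n, hn⟩ := hx
      exact (seq n).2.2 hn
    · intro K hK hxK
      rw [eq_top_iff]
      intro g _
      obtain ⟨n, rfl⟩ := hy g
      exact hf2 n (seq n) K ((le_iSup (fun n => (seq n).1) (n + 1)).trans hK) hxK

end Pool.Agent.Helper310.Ctbl
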