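import Mathlib

set_option autoImplicit false

namespace Pool.Agent.Helper310.Step

open Function

variable {ι : Type*} {F : Type*} [Group F]

/-- The element of `F` spelled by a word in the basis letters. -/
def ev (b : FreeGroupBasis ι F) (L : List (ι × Bool)) : F :=
  b.repr.symm (FreeGroup.mk L)

lemma ev_nil (b : FreeGroupBasis ι F) : ev b [] = 1 := by
  unfold ev
  rw [← FreeGroup.one_eq_mk, map_one]

lemma ev_cons (b : FreeGroupBasis ι F) (c : ι × Bool) (L : List (ι × Bool)) :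
    ev b (c :: L) = ev b [c] * ev b L := by
  unfold ev
  rw [← map_mul, FreeGroup.mul_mk]
  rfl

lemma ev_surj (b : FreeGroupBasis ι F) (g : F) : ∃ L, ev b L = g :=
  by
    classical
    exact ⟨(b.repr g).toWord, by unfold ev; rw [FreeGroup.mk_toWord]; simp⟩

lemma ev_true (b : FreeGroupBasis ι F) (i : ι) : ev b [(i, true)] = b i := by
  unfold ev
  have : b i = b.repr.symm (FreeGroup.of i) := rfl
  rw [this]; rfl

lemma ev_false (b : FreeGroupBasis ι F) (i : ι) : ev b [(i, false)] = (b i)⁻¹ := by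
  have h : ev b [(i, false)] * ev b [(i, true)] = 1 := by
    unfold ev
    rw [← map_mul, FreeGroup.mul_mk, ← map_one b.repr.symm, FreeGroup.one_eq_mk]
    congr 1
    apply Quot.sound
    exact FreeGroup.Red.Step.not (L₁ := []) (L₂ := [])
  rw [ev_true] at h
  exact eq_inv_of_mul_eq_one_left h

variable {X : Type*} [MulAction F X]

/-- All suffixes of `L` move `o` inside `V`. -/
def Stays (b : FreeGroupBasis ι F) (o : X) (V : Set X) : List (ι × Bool) → Prop
  | [] => o ∈ V
  | (c :: L) => ev b (c :: L) • o ∈ V ∧ Stays b o V L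

lemma Stays.mem_base {b : FreeGroupBasis ι F} {o : X} {V : Set X} :
    ∀ {L : List (ι × Bool)}, Stays b o V L → o ∈ V
  | [], h => h
  | (_ :: _), h => Stays.mem_base h.2

lemma Stays.mem {b : FreeGroupBasis ι F} {o : X} {V : Set X} :
    ∀ {L : List (ι × Bool)}, Stays b o V L → ev b L • o ∈ V
  | [], h => by rw [ev_nil, one_smul]; exact h
  | (_ :: _), h => h.1

lemma Stays.mono {b : FreeGroupBasis ι F} {o : X} {V W : Set X} (hVW : V ⊆ W) :
    ∀ {L : List (ι × Bool)}, Stays b o V L → Stays b o W L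
  | [], h => hVW h
  | (_ :: _), h => ⟨hVW h.1, Stays.mono hVW h.2⟩

/-- the set of points visited by suffixes of a word -/
lemma exists_trace (b : FreeGroupBasis ι F) (o : X) : ∀ L : List (ι × Bool),
    ∃ V : Set X, V.Finite ∧ Stays b o V L ∧
      ∀ v ∈ V, ∃ L', ev b L' • o = v ∧ Stays b o V L'
  | [] => ⟨{o}, Set.finite_singleton o, rfl, by
      intro v hv
      refine ⟨[], ?_, rfl⟩
      rw [ev_nil, one_smul]; exact hv.symm⟩
  | (c :: L) => by
      obtain ⟨V, hV, hs, hc⟩ := exists_trace b o L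
      refine ⟨insert (ev b (c :: L) • o) V, hV.insert _, ⟨Set.mem_insert _ _,
        hs.mono (Set.subset_insert _ _)⟩, ?_⟩
      intro v hv
      rcases hv with hv | hv
      · exact ⟨c :: L, hv.symm, Set.mem_insert _ _, hs.mono (Set.subset_insert _ _)⟩
      · obtain ⟨L', h1, h2⟩ := hc v hv
        exact ⟨L', h1, h2.mono (Set.subset_insert _ _)⟩

/-- connected finite set of points -/
def Conn (b : FreeGroupBasis ι F) (o : X) (V : Set X) : Prop :=
  o ∈ V ∧ ∀ v ∈ V, ∃ L, ev b L • o = v ∧ Stays b o V L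

lemma Conn.union {b : FreeGroupBasis ι F} {o : X} {V W : Set X} (hV : Conn b o V)
    (hW : Conn b o W) : Conn b o (V ∪ W) := by
  refine ⟨Or.inl hV.1, ?_⟩
  rintro v (hv | hv)
  · obtain ⟨L, h1, h2⟩ := hV.2 v hv
    exact ⟨L, h1, h2.mono Set.subset_union_left⟩
  · obtain ⟨L, h1, h2⟩ := hW.2 v hv
    exact ⟨L, h1, h2.mono Set.subset_union_right⟩

/-- finite connected set supporting finitely many words -/
lemma exists_conn (b : FreeGroupBasis ι F) (o : X) (S : Set (List (ι × Bool)))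
    (hS : S.Finite) : ∃ V : Set X, V.Finite ∧ Conn b o V ∧ ∀ L ∈ S, Stays b o V L := by
  induction S, hS using Set.Finite.induction_on with
  | empty =>
    refine ⟨{o}, Set.finite_singleton o, ⟨rfl, ?_⟩, by simp⟩
    intro v hv
    refine ⟨[], ?_, rfl⟩
    rw [ev_nil, one_smul]; exact hv.symm
  | @insert a s ha hs ih =>
    obtain ⟨V, hV, hc, hst⟩ := ih
    obtain ⟨W, hW, hWs, hWc⟩ := exists_trace b o a
    refine ⟨V ∪ W, hV.union hW, hc.union ⟨hWs.mem_base, hWc⟩, ?_⟩
    rintro L (rfl | hL)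
    · exact hWs.mono Set.subset_union_right
    · exact (hst L hL).mono Set.subset_union_left

/-- a connected proper subset can be enlarged by one point -/
lemma Conn.exists_insert {b : FreeGroupBasis ι F} {o : X} {V : Set X} (hV : Conn b o V)
    (htr : ∀ x : X, ∃ g : F, g • o = x) (hne : V ≠ Set.univ) :
    ∃ z, z ∉ V ∧ Conn b o (insert z V) := by
  obtain ⟨z, hz⟩ := (Set.ne_univ_iff_exists_notMem V).1 hne
  obtain ⟨g, hg⟩ := htr z
  obtain ⟨L, hL⟩ := ev_surj b g
  have key : ∀ L : List (ι × Bool), ev b L • o ∉ V →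
      ∃ c L', ev b L' • o ∈ V ∧ ev b (c :: L') • o ∉ V := by
    intro L
    induction L with
    | nil => intro h; exact absurd (by rw [ev_nil, one_smul]; exact hV.1) h
    | cons c L ih =>
      intro h
      by_cases h' : ev b L • o ∈ V
      · exact ⟨c, L, h', h⟩
      · exact ih h'
  obtain ⟨c, L', h1, h2⟩ := key L (by rw [hL, hg]; exact hz)
  refine ⟨_, h2, Set.mem_insert_of_mem _ hV.1, ?_⟩
  rintro v (hv | hv)
  · obtain ⟨M, hM1, hM2⟩ := hV.2 _ h1
    refine ⟨c :: M, ?_, ?_, hM2.mono (Set.subset_insert _ _)⟩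
    · rw [hv, ev_cons, mul_smul, hM1, ev_cons b c L', mul_smul]
    · have : ev b (c :: M) • o = ev b (c :: L') • o := by
        rw [ev_cons, mul_smul, hM1, ev_cons b c L', mul_smul]
      rw [this]
      exact Set.mem_insert _ _
  · obtain ⟨M, hM1, hM2⟩ := hV.2 v hv
    exact ⟨M, hM1, hM2.mono (Set.subset_insert _ _)⟩

lemma Conn.exists_ncard {b : FreeGroupBasis ι F} {o : X} {V : Set X} (hV : Conn b o V)
    (hfin : V.Finite)
    (htr : ∀ x : X, ∃ g : F, g • o = x) (hinf : Infinite X) (n : ℕ) (hn : V.ncard ≤ n) :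
    ∃ W : Set X, V ⊆ W ∧ W.Finite ∧ Conn b o W ∧ W.ncard = n := by
  induction n, hn using Nat.le_induction with
  | base => exact ⟨V, subset_rfl, hfin, hV, rfl⟩
  | succ n hn ih =>
    obtain ⟨W, h1, h2, h3, h4⟩ := ih
    have hne : W ≠ Set.univ := by
      rintro rfl
      exact (Set.infinite_univ (α := X)) h2
    obtain ⟨z, hz, hc⟩ := h3.exists_insert htr hne
    exact ⟨insert z W, h1.trans (Set.subset_insert _ _), h2.insert _, hc, by
      rw [Set.ncard_insert_of_notMem hz h2, h4]⟩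

open Classical in
/-- Partial permutation of a basis letter on a finite set of points, completed. -/
lemma exists_perm (V : Set X) (hV : V.Finite) (g : F) :
    ∃ σ : Equiv.Perm V, (∀ v : V, g • (v : X) ∈ V → ((σ v : V) : X) = g • (v : X)) ∧
      (∀ v : V, g⁻¹ • (v : X) ∈ V → ((σ⁻¹ v : V) : X) = g⁻¹ • (v : X)) := by
  have : Fintype V := hV.fintype
  let e : {v : V // g • (v : X) ∈ V} ≃ {v : V // g⁻¹ • (v : X) ∈ V} :=
    { toFun := fun v => ⟨⟨g • (v.1 : X), v.2⟩, by
        show g⁻¹ • (g • (v.1 : X)) ∈ V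
        rw [inv_smul_smul]; exact v.1.2⟩
      invFun := fun v => ⟨⟨g⁻¹ • (v.1 : X), v.2⟩, by
        show g • (g⁻¹ • (v.1 : X)) ∈ V
        rw [smul_inv_smul]; exact v.1.2⟩
      left_inv := by
        rintro ⟨⟨v, hv⟩, h⟩
        simp
      right_inv := by
        rintro ⟨⟨v, hv⟩, h⟩
        simp }
  have h1 : ∀ v : V, g • (v : X) ∈ V → ((e.extendSubtype v : V) : X) = g • (v : X) := by
    intro v hv
    rw [Equiv.extendSubtype_apply_of_mem e v hv]
    rfl
  refine ⟨e.extendSubtype, h1, ?_⟩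
  intro v hv
  have h2 := h1 ⟨g⁻¹ • (v : X), hv⟩ (by
    show g • (g⁻¹ • (v : X)) ∈ V
    rw [smul_inv_smul]; exact v.2)
  have h3 : e.extendSubtype ⟨g⁻¹ • (v : X), hv⟩ = v := by
    apply Subtype.ext
    rw [h2]
    show g • (g⁻¹ • (v : X)) = v
    rw [smul_inv_smul]
  have h4 : (e.extendSubtype)⁻¹ v = ⟨g⁻¹ • (v : X), hv⟩ := by
    rw [Equiv.Perm.inv_eq_iff_eq, h3]
  rw [h4]

lemma exists_hom (b : FreeGroupBasis ι F) (V : Set X) (hV : V.Finite) :
    ∃ Ψ : F →* Equiv.Perm V, ∀ (c : ι × Bool) (v : V), ev b [c] • (v : X) ∈ V →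
      ((Ψ (ev b [c]) v : V) : X) = ev b [c] • (v : X) := by
  choose σ h1 h2 using fun i => exists_perm (F := F) V hV (b i)
  refine ⟨b.lift σ, ?_⟩
  have hb : ∀ i, b.lift σ (b i) = σ i := fun i => by
    simp [FreeGroupBasis.lift]
  rintro ⟨i, ε⟩ v hv
  cases ε
  · rw [ev_false] at hv ⊢
    rw [map_inv, hb]
    exact h2 i v hv
  · rw [ev_true] at hv ⊢
    rw [hb]
    exact h1 i v hv

lemma hom_word (b : FreeGroupBasis ι F) (o : X) (V : Set X)
    (Ψ : F →* Equiv.Perm V) (hΨ : ∀ (c : ι × Bool) (v : V), ev b [c] • (v : X) ∈ V →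
      ((Ψ (ev b [c]) v : V) : X) = ev b [c] • (v : X)) (ho : o ∈ V) :
    ∀ L, Stays b o V L → ((Ψ (ev b L) ⟨o, ho⟩ : V) : X) = ev b L • o
  | [], _ => by simp [ev_nil]
  | (c :: L), h => by
      have ih := hom_word b o V Ψ hΨ ho L h.2
      rw [ev_cons, map_mul, Equiv.Perm.mul_apply, mul_smul]
      have h1 : ev b [c] • ((Ψ (ev b L) ⟨o, ho⟩ : V) : X) ∈ V := by
        rw [ih, ← mul_smul, ← ev_cons]; exact h.1
      rw [hΨ c _ h1, ih]

/-- **Step lemma**: in a free group, a finitely generated subgroup of infinite index not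
containing `x` is contained in a subgroup of prime index not containing `x`. -/
theorem step (b : FreeGroupBasis ι F) (N : Subgroup F) (hfg : N.FG) (hidx : N.index = 0)
    (x : F) (hx : x ∉ N) : ∃ N' : Subgroup F, N ≤ N' ∧ x ∉ N' ∧ N'.index.Prime := by
  obtain ⟨T, hT⟩ := hfg
  choose w hw using ev_surj b
  let o : F ⧸ N := ((1 : F) : F ⧸ N)
  have hinf : Infinite (F ⧸ N) := by
    by_contra hcon
    rw [not_infinite_iff_finite] at hcon
    exact (Subgroup.index_ne_zero_iff_finite.2 hcon) hidx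
  have htr : ∀ y : F ⧸ N, ∃ g : F, g • o = y := fun y => MulAction.exists_smul_eq F o y
  obtain ⟨V₀, hV₀, hc₀, hS₀⟩ := exists_conn b o (w '' (insert x (T : Set F)))
    ((T.finite_toSet.insert x).image w)
  obtain ⟨p, hp, hpp⟩ := Nat.exists_infinite_primes V₀.ncard
  obtain ⟨V, hV₀V, hV, hc, hcard⟩ := hc₀.exists_ncard hV₀ htr hinf p hp
  obtain ⟨Ψ, hΨ⟩ := exists_hom b V hV
  have hword := hom_word b o V Ψ hΨ hc.1
  have hword' : ∀ g ∈ insert x (T : Set F), ((Ψ g ⟨o, hc.1⟩ : V) : F ⧸ N) = g • o := by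
    intro g hg
    have := hword (w g) ((hS₀ _ ⟨g, hg, rfl⟩).mono hV₀V)
    rwa [hw] at this
  let _ : MulAction F V := MulAction.compHom V Ψ
  have hact : ∀ (g : F) (v : V), g • v = Ψ g v := fun _ _ => rfl
  refine ⟨MulAction.stabilizer F (⟨o, hc.1⟩ : V), ?_, ?_, ?_⟩
  · have hle : Subgroup.closure (T : Set F) ≤ MulAction.stabilizer F (⟨o, hc.1⟩ : V) := by
      rw [Subgroup.closure_le]
      intro t ht
      rw [SetLike.mem_coe, MulAction.mem_stabilizer_iff, hact]
      apply Subtype.ext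
      rw [hword' t (Set.mem_insert_of_mem _ ht)]
      show ((t * 1 : F) : F ⧸ N) = ((1 : F) : F ⧸ N)
      have htN : t ∈ N := hT ▸ Subgroup.subset_closure ht
      rw [mul_one, eq_comm, QuotientGroup.eq, inv_one, one_mul]
      exact htN
    exact hT ▸ hle
  · rw [MulAction.mem_stabilizer_iff, hact]
    intro h
    apply hx
    have h1 := congrArg Subtype.val h
    rw [hword' x (Set.mem_insert _ _)] at h1
    have h2 : ((x * 1 : F) : F ⧸ N) = ((1 : F) : F ⧸ N) := h1
    rw [mul_one, eq_comm, QuotientGroup.eq, inv_one, one_mul] at h2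
    exact h2
  · rw [MulAction.index_stabilizer]
    have horb : MulAction.orbit F (⟨o, hc.1⟩ : V) = Set.univ := by
      rw [Set.eq_univ_iff_forall]
      rintro ⟨v, hv⟩
      obtain ⟨L, hL1, hL2⟩ := hc.2 v hv
      refine ⟨ev b L, ?_⟩
      show ev b L • (⟨o, hc.1⟩ : V) = _
      rw [hact]
      apply Subtype.ext
      rw [hword L hL2, hL1]
    rw [horb, Set.ncard_univ, Nat.card_coe_set_eq, hcard]
    exact hpp

end Pool.Agent.Helper310.Step
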