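import Pool.Agent.Helper310.Count
import Pool.Agent.Helper310.Step

set_option autoImplicit false

namespace Pool.Agent.Helper310.Dep

open Monoid Function Pool.Agent.Helper310.Step Pool.Agent.Helper310.Count

universe u

section coprod

variable {A B : Type u} [Group A] [Group B]

/-- infinite cyclic group -/
abbrev Z := Multiplicative ℤ

/-- family of groups for the pushout -/
def Gf (A B : Type u) [Group A] [Group B] : Bool → Type u
  | true => B
  | false => Coprod A Z

instance (c : Bool) : Group (Gf A B c) :=
  match c with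
  | true => inferInstanceAs (Group B)
  | false => inferInstanceAs (Group (Coprod A Z))

/-- family of maps for the pushout -/
def ph (f : A →* B) : (c : Bool) → A →* Gf A B c
  | true => f
  | false => (Coprod.inl : A →* Coprod A Z)

lemma ph_inj (f : A →* B) (hf : Injective f) : ∀ c, Injective (ph f c)
  | true => hf
  | false => Coprod.inl_injective

/-- `A * Z → B * Z` is injective if `A → B` is. -/
lemma inj_map (f : A →* B) (hf : Injective f) :
    Injective (Coprod.map f (MonoidHom.id Z)) := by
  let o : Coprod A Z →* PushoutI (ph f) := PushoutI.of (φ := ph f) false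
  let o' : B →* PushoutI (ph f) := PushoutI.of (φ := ph f) true
  have ho : Injective o := PushoutI.of_injective (ph_inj f hf) false
  let h : Coprod B Z →* PushoutI (ph f) := Coprod.lift o' (o.comp Coprod.inr)
  have hcomp : h.comp (Coprod.map f (MonoidHom.id Z)) = o := by
    apply Coprod.hom_ext
    · ext a
      simp only [MonoidHom.comp_apply, Coprod.map_apply_inl, h, Coprod.lift_apply_inl]
      have h1 : o' (f a) = PushoutI.base (ph f) a := PushoutI.of_apply_eq_base (ph f) true a
      have h2 : o (Coprod.inl a) = PushoutI.base (ph f) a :=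
        PushoutI.of_apply_eq_base (ph f) false a
      rw [h1, h2]
    · ext
      simp [h]
  have : Injective (h.comp (Coprod.map f (MonoidHom.id Z))) := by rw [hcomp]; exact ho
  intro x y hxy
  exact this (by rw [MonoidHom.comp_apply, MonoidHom.comp_apply, hxy])

end coprod

variable {G : Type u} [Group G]

/-- The map `F * Z → G` sending the generator of `Z` to `g`. -/
noncomputable def Th (F : Subgroup G) (g : G) : Coprod F Z →* G :=
  Coprod.lift F.subtype (zpowersHom G g)

/-- Elements of `G` that are not free over `F`. -/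
def DepSet (F : Subgroup G) : Set G := {g | ¬ Injective (Th F g)}

lemma DepSet_mono {F F' : Subgroup G} (h : F ≤ F') : DepSet F ⊆ DepSet F' := by
  intro g hg hinj
  apply hg
  have hcomp : Th F g = (Th F' g).comp (Coprod.map (Subgroup.inclusion h) (MonoidHom.id Z)) := by
    apply Coprod.hom_ext
    · ext a
      simp [Th]
    · ext
      simp [Th]
  rw [hcomp]
  exact hinj.comp (inj_map _ (Subgroup.inclusion_injective h))

/-- Free groups are residually finite. -/
lemma exists_finite_hom {J : Type*} (w : FreeGroup J) (hw : w ≠ 1) :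
    ∃ (n : ℕ) (θ : FreeGroup J →* Equiv.Perm (Fin n)), θ w ≠ 1 := by
  have hJ : Nonempty J := by
    by_contra hcon
    rw [not_nonempty_iff] at hcon
    exact hw (Subsingleton.elim _ _)
  have hidx : (⊥ : Subgroup (FreeGroup J)).index = 0 := by
    rw [Subgroup.index_bot]
    exact Nat.card_eq_zero_of_infinite
  obtain ⟨N', _, h2, h3⟩ := step (FreeGroupBasis.ofFreeGroup J) ⊥ Subgroup.FG.bot hidx w
    (by simpa using hw)
  have hfin : Finite (FreeGroup J ⧸ N') := Subgroup.index_ne_zero_iff_finite.1 h3.ne_zero
  let e := Finite.equivFin (FreeGroup J ⧸ N')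
  refine ⟨_, (Equiv.permCongrHom e).toMonoidHom.comp
    (MulAction.toPermHom (FreeGroup J) (FreeGroup J ⧸ N')), ?_⟩
  intro h
  have h4 : MulAction.toPermHom (FreeGroup J) (FreeGroup J ⧸ N') w = 1 := by
    apply (Equiv.permCongrHom e).injective
    rw [map_one]
    exact h
  have h5 : w • ((1 : FreeGroup J) : FreeGroup J ⧸ N') = ((1 : FreeGroup J) : FreeGroup J ⧸ N') := by
    have := congrArg (fun σ : Equiv.Perm (FreeGroup J ⧸ N') => σ ((1 : FreeGroup J) :
      FreeGroup J ⧸ N')) h4
    simpa using this
  have h6 : ((w * 1 : FreeGroup J) : FreeGroup J ⧸ N') = ((1 : FreeGroup J) : FreeGroup J ⧸ N') := h5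
  rw [mul_one, eq_comm, QuotientGroup.eq, inv_one, one_mul] at h6
  exact h2 h6

/-- Rank drop: a free group generated by `c : J → E` satisfying a nontrivial relation has
rank less than the cardinality of `J`. -/
lemma rank_drop {J κ E : Type*} [Finite J] [Group E] (b : FreeGroupBasis κ E) (c : J → E)
    (hc : Subgroup.closure (Set.range c) = ⊤) (w : FreeGroup J) (hw : w ≠ 1)
    (hrel : FreeGroup.lift c w = 1) : Finite κ ∧ Nat.card κ < Nat.card J := by
  obtain ⟨n, θ, hθ⟩ := exists_finite_hom w hw
  have hinj : Injective (fun (f : E →* Equiv.Perm (Fin n)) (j : J) => f (c j)) := by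
    intro f g hfg
    apply MonoidHom.eq_of_eqOn_dense hc
    rintro _ ⟨j, rfl⟩
    exact congrFun hfg j
  have hnsurj : ¬ Surjective (fun (f : E →* Equiv.Perm (Fin n)) (j : J) => f (c j)) := by
    intro hs
    obtain ⟨f, hf⟩ := hs (fun j => θ (FreeGroup.of j))
    apply hθ
    have h1 : f.comp (FreeGroup.lift c) = θ := by
      ext j
      simp only [MonoidHom.comp_apply, FreeGroup.lift_apply_of]
      rw [← congrFun hf j]
    rw [← h1, MonoidHom.comp_apply, hrel, map_one]
  have h2 : Finite (E →* Equiv.Perm (Fin n)) := Finite.of_injective _ hinj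
  have h3 : Finite (κ → Equiv.Perm (Fin n)) := Finite.of_equiv _ b.lift.symm
  have hnt : Nontrivial (Equiv.Perm (Fin n)) := ⟨_, _, hθ⟩
  have hκ : Finite κ := by
    by_contra hcon
    rw [not_finite_iff_infinite] at hcon
    have h4 : Infinite (κ → Equiv.Perm (Fin n)) := Pi.infinite_of_left
    exact not_finite (κ → Equiv.Perm (Fin n))
  refine ⟨hκ, ?_⟩
  have h4 : Nat.card (E →* Equiv.Perm (Fin n)) < Nat.card (J → Equiv.Perm (Fin n)) := by
    refine lt_of_le_of_ne (Nat.card_le_card_of_injective _ hinj) ?_
    intro heq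
    exact hnsurj (((Nat.bijective_iff_injective_and_card _).2 ⟨hinj, heq⟩).2)
  rw [← Nat.card_congr (b.lift : (κ → Equiv.Perm (Fin n)) ≃ _), Nat.card_fun, Nat.card_fun] at h4
  have h5 : 1 < Nat.card (Equiv.Perm (Fin n)) := Finite.one_lt_card
  exact (Nat.pow_lt_pow_iff_right h5).1 h4

lemma exists_rel {m : ℕ} {F : Subgroup G} (b : FreeGroupBasis (Fin m) F) {g : G}
    (hg : g ∈ DepSet F) : ∃ w : FreeGroup (Option (Fin m)), w ≠ 1 ∧
      FreeGroup.lift (fun o : Option (Fin m) => o.elim g (fun i => (b i : G))) w = 1 := by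
  have hg' : ¬ Injective (Th F g) := hg
  rw [injective_iff_map_eq_one] at hg'
  push Not at hg'
  obtain ⟨z, hz, hz1⟩ := hg'
  let α : Coprod F Z →* FreeGroup (Option (Fin m)) :=
    Coprod.lift (b.lift (fun i => FreeGroup.of (some i))) (zpowersHom _ (FreeGroup.of none))
  let β : FreeGroup (Option (Fin m)) →* Coprod F Z :=
    FreeGroup.lift (fun o : Option (Fin m) =>
      o.elim (Coprod.inr (Multiplicative.ofAdd 1)) (fun i => Coprod.inl (b i)))
  have hb : ∀ i, b.lift (fun i => (FreeGroup.of (some i) : FreeGroup (Option (Fin m)))) (b i)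
      = FreeGroup.of (some i) := fun i => by simp [FreeGroupBasis.lift]
  have hβα : β.comp α = MonoidHom.id _ := by
    apply Coprod.hom_ext
    · apply b.ext_hom
      intro i
      simp [α, β, hb]
    · ext
      simp [α, β]
  have hTh : (FreeGroup.lift (fun o : Option (Fin m) => o.elim g (fun i => (b i : G)))).comp α
      = Th F g := by
    apply Coprod.hom_ext
    · apply b.ext_hom
      intro i
      simp [α, Th, hb]
    · ext
      simp [α, Th]
  refine ⟨α z, ?_, ?_⟩
  · intro h
    apply hz1
    have := congrArg (fun f : Coprod F Z →* Coprod F Z => f z) hβα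
    simp only [MonoidHom.comp_apply, MonoidHom.id_apply] at this
    rw [← this, h, map_one]
  · rw [← MonoidHom.comp_apply, hTh, hz]

lemma step_basis (hfree : ∀ H : Subgroup G, H.FG → IsFreeGroup H) {m : ℕ} {E : Subgroup G}
    (hE : E.FG) (b : FreeGroupBasis (Fin m) E) {g : G} (hg : g ∈ DepSet E) :
    ∃ m' ≤ m, Nonempty (FreeGroupBasis (Fin m') (E ⊔ Subgroup.closure {g} : Subgroup G)) := by
  classical
  obtain ⟨w, hw, hrel⟩ := exists_rel b hg
  have hE' : (E ⊔ Subgroup.closure {g} : Subgroup G).FG := hE.sup ⟨{g}, by simp⟩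
  generalize hE'def : (E ⊔ Subgroup.closure {g} : Subgroup G) = E' at hE'
  have hEE' : E ≤ E' := hE'def ▸ le_sup_left
  have hgE' : g ∈ E' := hE'def ▸ (le_sup_right : Subgroup.closure {g} ≤ E ⊔ Subgroup.closure {g})
    (Subgroup.subset_closure rfl)
  obtain ⟨κ, ⟨β⟩⟩ := (hfree E' hE').nonempty_basis
  let c : Option (Fin m) → E' := fun o => o.elim ⟨g, hgE'⟩ (fun i => ⟨b i, hEE' (b i).2⟩)
  have hc : Subgroup.closure (Set.range c) = ⊤ := by
    apply Subgroup.map_injective E'.subtype_injective
    rw [MonoidHom.map_closure]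
    have htop : Subgroup.map E'.subtype ⊤ = E' := by
      rw [← MonoidHom.range_eq_map, Subgroup.range_subtype]
    rw [htop]
    apply le_antisymm
    · rw [Subgroup.closure_le]
      rintro _ ⟨x, _, rfl⟩
      exact x.2
    · conv_lhs => rw [← hE'def]
      rw [sup_le_iff]
      constructor
      · intro x hx
        have h1 : (⟨x, hx⟩ : E) ∈ Subgroup.closure (Set.range b) := by
          have : Subgroup.closure (Set.range b) = ⊤ := by
            have h : Set.range b = b.repr.symm '' (Set.range (FreeGroup.of : Fin m → _)) := by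
              rw [← Set.range_comp]; rfl
            rw [h]
            have := (b.repr.symm.toMonoidHom.map_closure (Set.range (FreeGroup.of : Fin m → _)))
            rw [FreeGroup.closure_range_of] at this
            have h2 : Subgroup.map b.repr.symm.toMonoidHom ⊤ = ⊤ :=
              Subgroup.map_top_of_surjective _ b.repr.symm.surjective
            rw [h2] at this
            exact this.symm
          rw [this]; trivial
        have h2 : x ∈ (Subgroup.closure (Set.range b)).map E.subtype := ⟨⟨x, hx⟩, h1, rfl⟩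
        rw [MonoidHom.map_closure] at h2
        refine Subgroup.closure_mono ?_ h2
        rintro _ ⟨_, ⟨i, rfl⟩, rfl⟩
        exact ⟨c (some i), ⟨some i, rfl⟩, rfl⟩
      · rw [Subgroup.closure_le]
        rintro x rfl
        exact Subgroup.subset_closure ⟨c none, ⟨none, rfl⟩, rfl⟩
  have hrel' : FreeGroup.lift c w = 1 := by
    apply E'.subtype_injective
    rw [map_one, ← hrel, ← MonoidHom.comp_apply]
    congr 1
    ext o
    cases o <;> simp [c]
  obtain ⟨hκ, hlt⟩ := rank_drop β c hc w hw hrel'
  have hcard : Nat.card (Option (Fin m)) = m + 1 := by simp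
  rw [hcard] at hlt
  exact ⟨Nat.card κ, by omega, ⟨β.reindex (Finite.equivFin κ)⟩⟩

/-- **Countability of the dependent set.** In a locally free group, only countably many elements
are not free over a given finitely generated subgroup. -/
theorem depSet_countable (hfree : ∀ H : Subgroup G, H.FG → IsFreeGroup H) (F : Subgroup G)
    (hF : F.FG) : (DepSet F).Countable := by
  classical
  obtain ⟨s, ⟨b⟩⟩ := exists_fin_basis hfree F hF
  apply countable_of_bounded hfree _ s
  have key : ∀ A : Finset G, (A : Set G) ⊆ DepSet F → ∃ E : Subgroup G, F ≤ E ∧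
      (A : Set G) ⊆ E ∧ E.FG ∧ ∃ m ≤ s, Nonempty (FreeGroupBasis (Fin m) E) := by
    intro A
    induction A using Finset.induction_on with
    | empty =>
      intro _
      exact ⟨F, le_rfl, by simp, hF, s, le_rfl, ⟨b⟩⟩
    | insert g A hgA ih =>
      intro hA
      rw [Finset.coe_insert, Set.insert_subset_iff] at hA
      obtain ⟨E, hFE, hAE, hE, m, hms, ⟨b'⟩⟩ := ih hA.2
      obtain ⟨m', hm', hb⟩ := step_basis hfree hE b' (DepSet_mono hFE hA.1)
      refine ⟨E ⊔ Subgroup.closure {g}, hFE.trans le_sup_left, ?_, hE.sup ⟨{g}, by simp⟩, m',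
        hm'.trans hms, hb⟩
      rw [Finset.coe_insert, Set.insert_subset_iff]
      exact ⟨(le_sup_right : Subgroup.closure {g} ≤ _) (Subgroup.subset_closure rfl),
        hAE.trans (le_sup_left : E ≤ E ⊔ Subgroup.closure {g})⟩
  intro A hA
  obtain ⟨E, _, h2, h3, h4⟩ := key A hA
  exact ⟨E, h2, h3, h4⟩

end Pool.Agent.Helper310.Dep
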