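import Pool.Agent.Helper310.Linear

set_option autoImplicit false

namespace Pool.Agent.Helper310.Generic

open MvPolynomial Matrix

universe u

section elementary

variable {R S : Type*} [CommRing R] [CommRing S]

/-- elementary matrix -/
def e12 (a : R) : Matrix.SpecialLinearGroup (Fin 2) R := ⟨!![1, a; 0, 1], by simp⟩

/-- elementary matrix -/
def e21 (a : R) : Matrix.SpecialLinearGroup (Fin 2) R := ⟨!![1, 0; a, 1], by simp⟩

/-- product of four elementary matrices -/
def el (v : Fin 4 → R) : Matrix.SpecialLinearGroup (Fin 2) R :=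
  e12 (v 0) * e21 (v 1) * e12 (v 2) * e21 (v 3)

lemma e12_coe (a : R) : (e12 a : Matrix (Fin 2) (Fin 2) R) = !![1, a; 0, 1] := rfl

lemma e21_coe (a : R) : (e21 a : Matrix (Fin 2) (Fin 2) R) = !![1, 0; a, 1] := rfl

lemma map_coe (f : R →+* S) (A : Matrix.SpecialLinearGroup (Fin 2) R) :
    (Matrix.SpecialLinearGroup.map f A : Matrix (Fin 2) (Fin 2) S) =
      (A : Matrix (Fin 2) (Fin 2) R).map f := rfl

lemma map_e12 (f : R →+* S) (a : R) : Matrix.SpecialLinearGroup.map f (e12 a) = e12 (f a) := by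
  apply Subtype.ext
  rw [map_coe, e12_coe, e12_coe]
  ext i j
  fin_cases i <;> fin_cases j <;> simp

lemma map_e21 (f : R →+* S) (a : R) : Matrix.SpecialLinearGroup.map f (e21 a) = e21 (f a) := by
  apply Subtype.ext
  rw [map_coe, e21_coe, e21_coe]
  ext i j
  fin_cases i <;> fin_cases j <;> simp

lemma map_el (f : R →+* S) (v : Fin 4 → R) :
    Matrix.SpecialLinearGroup.map f (el v) = el (fun n => f (v n)) := by
  unfold el
  rw [map_mul, map_mul, map_mul, map_e12, map_e12, map_e21, map_e21]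

lemma e21_mul_neg (a : R) : e21 a * e21 (-a) = 1 := by
  apply Subtype.ext
  rw [Matrix.SpecialLinearGroup.coe_mul, e21_coe, e21_coe, Matrix.SpecialLinearGroup.coe_one,
    Matrix.mul_fin_two, Matrix.one_fin_two]
  simp

lemma e21_zero : e21 (0 : R) = 1 := by
  apply Subtype.ext
  rw [e21_coe, Matrix.SpecialLinearGroup.coe_one, Matrix.one_fin_two]

lemma el_surj_aux {k : Type*} [Field k] (A : Matrix.SpecialLinearGroup (Fin 2) k)
    (h : (A : Matrix (Fin 2) (Fin 2) k) 1 0 ≠ 0) : ∃ a b c : k, A = e12 a * e21 b * e12 c := by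
  have hdet := A.det_coe
  have hco : ∀ a b c : k, ((e12 a * e21 b * e12 c : Matrix.SpecialLinearGroup (Fin 2) k) :
      Matrix (Fin 2) (Fin 2) k) = !![1 + a * b, (1 + a * b) * c + a; b, b * c + 1] := by
    intro a b c
    rw [Matrix.SpecialLinearGroup.coe_mul, Matrix.SpecialLinearGroup.coe_mul, e21_coe, e12_coe,
      e12_coe, Matrix.mul_fin_two, Matrix.mul_fin_two]
    simp
  rw [Matrix.det_fin_two] at hdet
  generalize hB : (A : Matrix (Fin 2) (Fin 2) k) = B at h hdet
  refine ⟨(B 0 0 - 1) / B 1 0, B 1 0, (B 1 1 - 1) / B 1 0, ?_⟩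
  apply Subtype.ext
  rw [hco]
  show (A : Matrix (Fin 2) (Fin 2) k) = _
  rw [hB, Matrix.eta_fin_two B]
  have h1 : 1 + (B 0 0 - 1) / B 1 0 * B 1 0 = B 0 0 := by field_simp; ring
  have h2 : B 1 0 * ((B 1 1 - 1) / B 1 0) + 1 = B 1 1 := by field_simp; ring
  have h3 : B 0 0 * ((B 1 1 - 1) / B 1 0) + (B 0 0 - 1) / B 1 0 = B 0 1 := by
    field_simp
    linear_combination hdet
  ext i j
  fin_cases i <;> fin_cases j
  · simp
    rw [h1]
  · simp
    rw [h1, h3]
  · simp
  · simp
    rw [h2]

lemma el_surj {k : Type*} [Field k] (A : Matrix.SpecialLinearGroup (Fin 2) k) :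
    ∃ v : Fin 4 → k, el v = A := by
  by_cases h : (A : Matrix (Fin 2) (Fin 2) k) 1 0 = 0
  · have hdet := A.det_coe
    rw [Matrix.det_fin_two, h, mul_zero, sub_zero] at hdet
    have h11 : (A : Matrix (Fin 2) (Fin 2) k) 1 1 ≠ 0 := fun h0 => by
      rw [h0, mul_zero] at hdet; exact zero_ne_one hdet
    obtain ⟨a, b, c, habc⟩ := el_surj_aux (A * e21 (-1)) (by
      rw [Matrix.SpecialLinearGroup.coe_mul, e21_coe, Matrix.mul_apply, Fin.sum_univ_two, h]
      simpa using h11)
    refine ⟨![a, b, c, 1], ?_⟩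
    show e12 a * e21 b * e12 c * e21 1 = A
    rw [← habc, mul_assoc]
    have : e21 (-1 : k) * e21 1 = 1 := by
      have := e21_mul_neg (-1 : k)
      rwa [neg_neg] at this
    rw [this, mul_one]
  · obtain ⟨a, b, c, habc⟩ := el_surj_aux A h
    refine ⟨![a, b, c, 0], ?_⟩
    show e12 a * e21 b * e12 c * e21 0 = A
    rw [← habc, e21_zero, mul_one]

end elementary

variable {G : Type u} [Group G]

/-- matrix entries of group elements, as variables -/
abbrev Var (G : Type u) : Type u := G × Fin 2 × Fin 2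

/-- the numbers `u (g, i, j)` for `g` in `E` are the entries of a representation of `E` -/
def IsRep (E : Subgroup G) (u : Var G → ℚ) : Prop :=
  ∃ σ : E →* Matrix.SpecialLinearGroup (Fin 2) ℚ, ∀ (g : E) (i j : Fin 2),
    u ((g : G), i, j) = (σ g).1 i j

lemma IsRep.mono {E E' : Subgroup G} (h : E ≤ E') {u : Var G → ℚ} (hu : IsRep E' u) :
    IsRep E u := by
  obtain ⟨σ, hσ⟩ := hu
  exact ⟨σ.comp (Subgroup.inclusion h), fun g i j => hσ (Subgroup.inclusion h g) i j⟩

/-- generic representation -/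
noncomputable def tau {κ : Type*} {E : Subgroup G} (b : FreeGroupBasis κ E) :
    E →* Matrix.SpecialLinearGroup (Fin 2) (MvPolynomial (κ × Fin 4) ℚ) :=
  b.lift (fun i => el (fun n => X (i, n)))

lemma tau_basis {κ : Type*} {E : Subgroup G} (b : FreeGroupBasis κ E) (i : κ) :
    tau b (b i) = el (fun n => X (i, n)) := by
  simp [tau, FreeGroupBasis.lift]

lemma tau_spec {κ : Type*} {E : Subgroup G} (b : FreeGroupBasis κ E)
    (σ : E →* Matrix.SpecialLinearGroup (Fin 2) ℚ) : ∃ a : κ × Fin 4 → ℚ, ∀ g,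
      Matrix.SpecialLinearGroup.map (eval a) (tau b g) = σ g := by
  choose v hv using fun i => el_surj (σ (b i))
  refine ⟨fun x => v x.1 x.2, ?_⟩
  have h : (Matrix.SpecialLinearGroup.map (eval (fun x : κ × Fin 4 => v x.1 x.2))).comp (tau b)
      = σ := by
    apply b.ext_hom
    intro i
    rw [MonoidHom.comp_apply, tau_basis, map_el, ← hv]
    simp
  intro g
  rw [← h]; rfl

variable (G)

/-- the ideal of polynomial relations valid on all representations of a large enough
finitely generated subgroup -/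
def relIdeal : Ideal (MvPolynomial (Var G) ℚ) where
  carrier := {p | ∃ E : Subgroup G, E.FG ∧ ∀ u, IsRep E u → eval u p = 0}
  add_mem' := by
    rintro p q ⟨E, hE, hp⟩ ⟨E', hE', hq⟩
    refine ⟨E ⊔ E', hE.sup hE', fun u hu => ?_⟩
    rw [map_add, hp u (hu.mono le_sup_left), hq u (hu.mono le_sup_right), add_zero]
  zero_mem' := ⟨⊥, Subgroup.FG.bot, fun u _ => by simp⟩
  smul_mem' := by
    rintro c p ⟨E, hE, hp⟩
    refine ⟨E, hE, fun u hu => ?_⟩
    rw [smul_eq_mul, map_mul, hp u hu, mul_zero]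

variable {G}

open Classical in
/-- values of the generic representation, extended by zero -/
noncomputable def genVal {κ : Type*} {E : Subgroup G} (b : FreeGroupBasis κ E) (v : Var G) :
    MvPolynomial (κ × Fin 4) ℚ :=
  if h : v.1 ∈ E then (tau b ⟨v.1, h⟩).1 v.2.1 v.2.2 else 0

lemma genVal_of_mem {κ : Type*} {E : Subgroup G} (b : FreeGroupBasis κ E) {v : Var G}
    (h : v.1 ∈ E) : genVal b v = (tau b ⟨v.1, h⟩).1 v.2.1 v.2.2 := dif_pos h

lemma isRep_genVal {κ : Type*} {E : Subgroup G} (b : FreeGroupBasis κ E) (a : κ × Fin 4 → ℚ) :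
    IsRep E (fun v => eval a (genVal b v)) := by
  refine ⟨(Matrix.SpecialLinearGroup.map (eval a)).comp (tau b), fun g i j => ?_⟩
  show eval a (genVal b ((g : G), i, j)) = _
  rw [genVal_of_mem b (v := ((g : G), i, j)) g.2]
  rfl

lemma exists_eval {κ : Type*} {E : Subgroup G} (b : FreeGroupBasis κ E) {u : Var G → ℚ}
    (hu : IsRep E u) : ∃ a : κ × Fin 4 → ℚ, ∀ v : Var G, v.1 ∈ E → u v = eval a (genVal b v) := by
  obtain ⟨σ, hσ⟩ := hu
  obtain ⟨a, ha⟩ := tau_spec b σ
  refine ⟨a, ?_⟩
  rintro ⟨g, i, j⟩ hg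
  rw [genVal_of_mem b hg]
  have h1 := hσ ⟨g, hg⟩ i j
  rw [← ha ⟨g, hg⟩] at h1
  exact h1

lemma eval_aeval_genVal {κ : Type*} {E : Subgroup G} (b : FreeGroupBasis κ E)
    (a : κ × Fin 4 → ℚ) (p : MvPolynomial (Var G) ℚ) :
    eval a (aeval (genVal b) p) = eval (fun v => eval a (genVal b v)) p := by
  induction p using MvPolynomial.induction_on with
  | C r => simp
  | add p q hp hq => rw [map_add, map_add, hp, hq, map_add]
  | mul_X p v hp => rw [map_mul, map_mul, hp, map_mul]; simp

theorem relIdeal_isPrime (hfree : ∀ H : Subgroup G, H.FG → IsFreeGroup H) :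
    (relIdeal G).IsPrime := by
  classical
  rw [Ideal.isPrime_iff]
  refine ⟨?_, ?_⟩
  · intro h
    have h1 : (1 : MvPolynomial (Var G) ℚ) ∈ relIdeal G := by rw [h]; trivial
    obtain ⟨E, _, hE⟩ := h1
    have := hE (fun v => ((1 : Matrix.SpecialLinearGroup (Fin 2) ℚ)).1 v.2.1 v.2.2)
      ⟨1, fun g i j => rfl⟩
    simp at this
  · rintro p q ⟨E, hE, hpq⟩
    let W : Finset G := p.vars.image Prod.fst ∪ q.vars.image Prod.fst
    let E' : Subgroup G := E ⊔ Subgroup.closure (W : Set G)
    have hE' : E'.FG := hE.sup ⟨W, rfl⟩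
    obtain ⟨κ, ⟨b⟩⟩ := (hfree E' hE').nonempty_basis
    have h0 : aeval (genVal b) p * aeval (genVal b) q = 0 := by
      apply MvPolynomial.funext
      intro a
      rw [map_mul, eval_aeval_genVal, eval_aeval_genVal, ← map_mul, map_zero]
      exact hpq _ ((isRep_genVal b a).mono le_sup_left)
    have key : ∀ r : MvPolynomial (Var G) ℚ, (∀ v ∈ r.vars, v.1 ∈ E') →
        aeval (genVal b) r = 0 → r ∈ relIdeal G := by
      intro r hr h
      refine ⟨E', hE', fun u hu => ?_⟩
      obtain ⟨a, ha⟩ := exists_eval b hu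
      have h1 : eval u r = eval (fun v => eval a (genVal b v)) r := by
        apply MvPolynomial.hom_congr_vars
        · ext x
          simp
        · intro v hv _
          rw [eval_X, eval_X]
          exact ha v (hr v hv)
        · rfl
      rw [h1, ← eval_aeval_genVal, h, map_zero]
    rcases mul_eq_zero.1 h0 with h | h
    · left
      apply key p _ h
      intro v hv
      exact (le_sup_right : _ ≤ E') (Subgroup.subset_closure (by
        simp only [W, Finset.coe_union, Finset.coe_image, Set.mem_union, Set.mem_image,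
          Finset.mem_coe]
        exact Or.inl ⟨v, hv, rfl⟩))
    · right
      apply key q _ h
      intro v hv
      exact (le_sup_right : _ ≤ E') (Subgroup.subset_closure (by
        simp only [W, Finset.coe_union, Finset.coe_image, Set.mem_union, Set.mem_image,
          Finset.mem_coe]
        exact Or.inr ⟨v, hv, rfl⟩))

end Pool.Agent.Helper310.Generic
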