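import Mathlib

set_option autoImplicit false

namespace Pool.Agent.Helper310.Linear

open Matrix

/-- slope attached to a letter -/
def sl {m : ℕ} (c : Fin m × Bool) : ℤ := 2 * (c.1 : ℕ) + (if c.2 then 0 else 1)

/-- inverse letter -/
def nc {m : ℕ} (c : Fin m × Bool) : Fin m × Bool := (c.1, !c.2)

/-- sign -/
def sg {m : ℕ} (c : Fin m × Bool) : ℤ := if c.2 then 1 else -1

/-- projection matrix -/
def P {m : ℕ} (c : Fin m × Bool) : Matrix (Fin 2) (Fin 2) ℤ :=
  !![sg c * sl (nc c), - sg c; sg c * sl c * sl (nc c), - sg c * sl c]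

/-- integral matrix of a letter -/
def N {m : ℕ} (p : ℕ) (c : Fin m × Bool) : Matrix (Fin 2) (Fin 2) ℤ :=
  P c + (p : ℤ) ^ 2 • P (nc c)

lemma N_det {m : ℕ} (p : ℕ) (c : Fin m × Bool) : (N p c).det = (p : ℤ) ^ 2 := by
  obtain ⟨i, ε⟩ := c
  cases ε <;> simp [N, P, sg, sl, nc, Matrix.det_fin_two] <;> ring

/-- the matrices in `SL₂(ℚ)` -/
noncomputable def M {m : ℕ} (p : ℕ) [hp : Fact p.Prime] (i : Fin m) :
    Matrix.SpecialLinearGroup (Fin 2) ℚ :=
  ⟨(p : ℚ)⁻¹ • (N p (i, true)).map (fun x : ℤ => (x : ℚ)), by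
    have hp0 : (p : ℚ) ≠ 0 := Nat.cast_ne_zero.2 hp.out.ne_zero
    have h := N_det p (i, true)
    rw [Matrix.det_smul]
    have h2 : ((N p (i, true)).map (fun x : ℤ => (x : ℚ))).det = ((N p (i, true)).det : ℚ) := by
      rw [Matrix.det_fin_two, Matrix.det_fin_two]
      simp
    rw [h2, h]
    simp
    try field_simp⟩

lemma key_letter {m : ℕ} (p : ℕ) [hp : Fact p.Prime] (c : Fin m × Bool) :
    (p : ℚ) • ((FreeGroup.lift (M (m := m) p) (FreeGroup.mk [c]) :
      Matrix.SpecialLinearGroup (Fin 2) ℚ) : Matrix (Fin 2) (Fin 2) ℚ)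
      = (N p c).map (fun x : ℤ => (x : ℚ)) := by
  have hp0 : (p : ℚ) ≠ 0 := Nat.cast_ne_zero.2 hp.out.ne_zero
  obtain ⟨i, ε⟩ := c
  cases ε
  · rw [FreeGroup.lift_mk]
    simp only [List.map_cons, List.map_nil, List.prod_cons, List.prod_nil, mul_one, cond_false,
      Matrix.SpecialLinearGroup.coe_inv, Matrix.adjugate_fin_two]
    ext a b
    fin_cases a <;> fin_cases b <;>
      simp [M, N, P, sg, sl, nc] <;> field_simp <;> ring
  · rw [FreeGroup.lift_mk]
    simp only [List.map_cons, List.map_nil, List.prod_cons, List.prod_nil, mul_one, cond_true]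
    unfold M
    show (p : ℚ) • ((p : ℚ)⁻¹ • (N p (i, true)).map (fun x : ℤ => (x : ℚ))) = _
    rw [smul_smul, mul_inv_cancel₀ hp0, one_smul]

lemma key_word {m : ℕ} (p : ℕ) [hp : Fact p.Prime] (L : List (Fin m × Bool)) :
    (p : ℚ) ^ L.length • ((FreeGroup.lift (M (m := m) p) (FreeGroup.mk L) :
      Matrix.SpecialLinearGroup (Fin 2) ℚ) : Matrix (Fin 2) (Fin 2) ℚ)
      = ((L.map (N p)).prod).map (fun x : ℤ => (x : ℚ)) := by
  induction L with
  | nil =>
    rw [← FreeGroup.one_eq_mk, map_one]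
    ext a b
    fin_cases a <;> fin_cases b <;> simp
  | cons c L ih =>
    have h1 : FreeGroup.mk (c :: L) = FreeGroup.mk [c] * FreeGroup.mk L := by
      rw [FreeGroup.mul_mk]; rfl
    have h2 : ((L.map (N p)).prod).map (fun x : ℤ => (x : ℚ)) =
      (Int.castRingHom ℚ).mapMatrix ((L.map (N p)).prod) := rfl
    have h3 : (N p c).map (fun x : ℤ => (x : ℚ)) = (Int.castRingHom ℚ).mapMatrix (N p c) := rfl
    have h4 : (((c :: L).map (N p)).prod).map (fun x : ℤ => (x : ℚ)) =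
      (Int.castRingHom ℚ).mapMatrix (((c :: L).map (N p)).prod) := rfl
    rw [h4, List.map_cons, List.prod_cons, map_mul, ← h3, ← h2, ← ih, ← key_letter, h1, map_mul,
      Matrix.SpecialLinearGroup.coe_mul, List.length_cons, pow_succ, Matrix.smul_mul,
      Matrix.mul_smul, smul_smul, mul_comm]

lemma sl_ne {m : ℕ} (p : ℕ) (hp : 2 * m ≤ p) {c d : Fin m × Bool} (h : c ≠ d) :
    ((sl c : ℤ) : ZMod p) ≠ ((sl d : ℤ) : ZMod p) := by
  intro hcd
  rw [ZMod.intCast_eq_intCast_iff_dvd_sub] at hcd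
  have h1 : sl c ≠ sl d := by
    intro h2
    apply h
    obtain ⟨i, ε⟩ := c
    obtain ⟨j, η⟩ := d
    simp only [sl] at h2
    cases ε <;> cases η <;> simp at h2 ⊢ <;> omega
  obtain ⟨i, ε⟩ := c
  obtain ⟨j, η⟩ := d
  have hi := i.2
  have hj := j.2
  have h3 : |sl (j, η) - sl (i, ε)| < p := by
    rw [abs_lt]
    simp only [sl]
    cases ε <;> cases η <;> simp <;> constructor <;> omega
  have h4 := Int.eq_zero_of_abs_lt_dvd hcd h3
  apply h1
  omega

/-- reduction mod `p` of the projection -/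
lemma P_mulVec {m : ℕ} (p : ℕ) (c : Fin m × Bool) (s : ZMod p) :
    ((Int.castRingHom (ZMod p)).mapMatrix (P c)) *ᵥ ![1, s] =
      (((sg c : ℤ) : ZMod p) * (((sl (nc c) : ℤ) : ZMod p) - s)) • ![1, ((sl c : ℤ) : ZMod p)] := by
  ext a
  fin_cases a <;> simp [P, Matrix.mulVec, dotProduct, Fin.sum_univ_two] <;> ring

lemma N_mod {m : ℕ} (p : ℕ) (c : Fin m × Bool) :
    (Int.castRingHom (ZMod p)).mapMatrix (N p c) = (Int.castRingHom (ZMod p)).mapMatrix (P c) := by
  ext a b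
  simp only [N, RingHom.mapMatrix_apply, Matrix.map_apply, Matrix.add_apply, Matrix.smul_apply,
    smul_eq_mul, map_add, map_mul, map_pow, map_natCast, ZMod.natCast_self]
  ring

lemma word_mod {m : ℕ} (p : ℕ) [hp : Fact p.Prime] (hmp : 2 * m ≤ p)
    (L : List (Fin m × Bool)) :
    ∀ c : Fin m × Bool, FreeGroup.IsReduced (c :: L) → ∃ lam s : ZMod p, lam ≠ 0 ∧
      ((Int.castRingHom (ZMod p)).mapMatrix (((c :: L).map (N p)).prod)) *ᵥ ![1, s] =
        lam • ![1, ((sl c : ℤ) : ZMod p)] := by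
  have hsg : ∀ c : Fin m × Bool, ((sg c : ℤ) : ZMod p) ≠ 0 := by
    rintro ⟨i, ε⟩
    cases ε <;> simp [sg]
  have hnc : ∀ c : Fin m × Bool, nc c ≠ c := by
    rintro ⟨i, ε⟩
    cases ε <;> simp [nc]
  induction L with
  | nil =>
    intro c _
    refine ⟨((sg c : ℤ) : ZMod p) * (((sl (nc c) : ℤ) : ZMod p) - ((sl c : ℤ) : ZMod p)),
      ((sl c : ℤ) : ZMod p), ?_, ?_⟩
    · exact mul_ne_zero (hsg c) (sub_ne_zero.2 (sl_ne p hmp (hnc c)))
    · rw [List.map_cons, List.map_nil, List.prod_cons, List.prod_nil, mul_one, N_mod, P_mulVec]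
  | cons d L ih =>
    intro c hred
    rw [FreeGroup.isReduced_cons_cons] at hred
    obtain ⟨lam, s, hlam, h⟩ := ih d hred.2
    refine ⟨((sg c : ℤ) : ZMod p) * (((sl (nc c) : ℤ) : ZMod p) - ((sl d : ℤ) : ZMod p)) * lam, s,
      ?_, ?_⟩
    · refine mul_ne_zero (mul_ne_zero (hsg c) (sub_ne_zero.2 (sl_ne p hmp ?_))) hlam
      intro hcd
      have h1 : c.1 = d.1 := by rw [← hcd]; rfl
      have h2 := hred.1 h1
      rw [← hcd] at h2
      simp [nc] at h2
    · rw [List.map_cons, List.prod_cons, map_mul, ← Matrix.mulVec_mulVec, h, N_mod,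
        Matrix.mulVec_smul, P_mulVec, smul_smul, mul_comm lam]

/-- Finitely generated free groups are residually `SL₂(ℚ)`. -/
theorem exists_rep {m : ℕ} (w : FreeGroup (Fin m)) (hw : w ≠ 1) :
    ∃ σ : FreeGroup (Fin m) →* Matrix.SpecialLinearGroup (Fin 2) ℚ, σ w ≠ 1 := by
  obtain ⟨p, hp, hpp⟩ := Nat.exists_infinite_primes (2 * m + 3)
  have : Fact p.Prime := ⟨hpp⟩
  refine ⟨FreeGroup.lift (M p), ?_⟩
  intro h
  have hL : w.toWord ≠ [] := fun h => hw (FreeGroup.toWord_eq_nil_iff.1 h)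
  have hred : FreeGroup.IsReduced w.toWord := FreeGroup.isReduced_toWord
  have hmk : FreeGroup.mk w.toWord = w := FreeGroup.mk_toWord
  generalize w.toWord = L at hL hred hmk
  obtain ⟨c, L, rfl⟩ := List.exists_cons_of_ne_nil hL
  obtain ⟨lam, s, hlam, hv⟩ := word_mod p (by omega) L c hred
  have h1 := key_word p (c :: L)
  rw [hmk, h, Matrix.SpecialLinearGroup.coe_one] at h1
  have h2 : (((c :: L).map (N p)).prod) = ((p : ℤ) ^ (c :: L).length) •
      (1 : Matrix (Fin 2) (Fin 2) ℤ) := by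
    ext a b
    have h3 := congrFun (congrFun h1 a) b
    rw [Matrix.smul_apply, Matrix.map_apply] at h3
    rw [Matrix.smul_apply]
    have : (((((c :: L).map (N p)).prod) a b : ℤ) : ℚ) = ((((p : ℤ) ^ (c :: L).length) •
      (1 : Matrix (Fin 2) (Fin 2) ℤ) a b : ℤ) : ℚ) := by
      rw [← h3]
      rw [Matrix.one_apply, Matrix.one_apply]
      split_ifs <;> simp
    exact_mod_cast this
  rw [h2] at hv
  have h5 : (Int.castRingHom (ZMod p)).mapMatrix (((p : ℤ) ^ (c :: L).length) •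
      (1 : Matrix (Fin 2) (Fin 2) ℤ)) = 0 := by
    ext a b
    simp only [RingHom.mapMatrix_apply, Matrix.map_apply, Matrix.smul_apply,
      smul_eq_mul, map_mul, map_pow, map_natCast, ZMod.natCast_self, List.length_cons, pow_succ,
      mul_zero, zero_mul, Matrix.zero_apply]
  rw [h5, Matrix.zero_mulVec] at hv
  have h4 := congrFun hv 0
  simp at h4
  exact hlam h4.symm

end Pool.Agent.Helper310.Linear
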