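import Pool.Agent.Helper310.Dep

set_option autoImplicit false

namespace Pool.Agent.Helper310.Recursion

open Monoid Function Cardinal Pool.Agent.Helper310.Dep

universe u

variable {G : Type u} [Group G]

lemma exists_finset_closure {S : Set G} {x : G} (hx : x ∈ Subgroup.closure S) :
    ∃ T : Finset G, (T : Set G) ⊆ S ∧ x ∈ Subgroup.closure (T : Set G) := by
  classical
  induction hx using Subgroup.closure_induction with
  | mem x hx => exact ⟨{x}, by simpa using hx, Subgroup.subset_closure (by simp)⟩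
  | one => exact ⟨∅, by simp, Subgroup.one_mem _⟩
  | mul x y _ _ hx hy =>
    obtain ⟨T, h1, h2⟩ := hx
    obtain ⟨T', h1', h2'⟩ := hy
    refine ⟨T ∪ T', by rw [Finset.coe_union]; exact Set.union_subset h1 h1', ?_⟩
    exact Subgroup.mul_mem _ (Subgroup.closure_mono (by simp) h2)
      (Subgroup.closure_mono (by simp) h2')
  | inv x _ hx =>
    obtain ⟨T, h1, h2⟩ := hx
    exact ⟨T, h1, Subgroup.inv_mem _ h2⟩

open Classical in
/-- **Successor step**: if `g` is free over `F` and `x`, `y` in `F` are not in `S₀ ≤ F`, then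
`x` is not in the subgroup generated by `S₀`, `g` and `y g x`. -/
lemma succ_step (F S₀ : Subgroup G) (hS₀F : S₀ ≤ F) {x y g : G} (hxF : x ∈ F) (hyF : y ∈ F)
    (hx : x ∉ S₀) (hy : y ∉ S₀) (hg : g ∉ DepSet F) :
    x ∉ Subgroup.closure ((S₀ : Set G) ∪ {g, y * g * x}) := by
  have hinj : Injective (Th F g) := by
    by_contra h
    exact hg h
  let S : Subgroup F := S₀.subgroupOf F
  let ω : F ⧸ S := ((1 : F) : F ⧸ S)
  let x' : F := ⟨x, hxF⟩
  let y' : F := ⟨y, hyF⟩
  let t : Equiv.Perm (F ⧸ S) := Equiv.swap (x' : F ⧸ S) ((y'⁻¹ : F) : F ⧸ S)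
  let Φ : Coprod F Z →* Equiv.Perm (F ⧸ S) :=
    Coprod.lift (MulAction.toPermHom F (F ⧸ S)) (zpowersHom _ t)
  have hΦl : ∀ (f : F) (q : F ⧸ S), Φ (Coprod.inl f) q = f • q := by
    intro f q
    simp [Φ]
  have hΦr : ∀ (q : F ⧸ S), Φ (Coprod.inr (Multiplicative.ofAdd 1)) q = t q := by
    intro q
    simp [Φ]
  have hTl : ∀ (f : F), Th F g (Coprod.inl f) = f := by
    intro f
    simp [Th]
  have hTr : Th F g (Coprod.inr (Multiplicative.ofAdd 1)) = g := by
    simp [Th]
  have hsm : ∀ f : F, f • ω = (f : F ⧸ S) := by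
    intro f
    show ((f * 1 : F) : F ⧸ S) = _
    rw [mul_one]
  have hmem : ∀ f : F, (f : F ⧸ S) = ω ↔ f ∈ S := by
    intro f
    rw [eq_comm, QuotientGroup.eq, inv_one, one_mul]
  have hxω : (x' : F ⧸ S) ≠ ω := by
    rw [Ne, hmem]
    exact hx
  have hyω : ((y'⁻¹ : F) : F ⧸ S) ≠ ω := by
    rw [Ne, hmem, S.inv_mem_iff]
    exact hy
  have htω : t ω = ω := Equiv.swap_apply_of_ne_of_ne hxω.symm hyω.symm
  let K : Subgroup (Coprod F Z) := (MulAction.stabilizer (Equiv.Perm (F ⧸ S)) ω).comap Φ
  have hK : ∀ z, z ∈ K ↔ Φ z ω = ω := fun z => Iff.rfl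
  have hle : Subgroup.closure ((S₀ : Set G) ∪ {g, y * g * x}) ≤ K.map (Th F g) := by
    rw [Subgroup.closure_le]
    rintro z (hz | hz | hz)
    · refine ⟨Coprod.inl ⟨z, hS₀F hz⟩, ?_, hTl _⟩
      show _ ∈ K
      rw [hK, hΦl, hsm, hmem]
      exact hz
    · refine ⟨Coprod.inr (Multiplicative.ofAdd 1), ?_, by rw [hTr, hz]⟩
      show _ ∈ K
      rw [hK, hΦr, htω]
    · refine ⟨Coprod.inl y' * Coprod.inr (Multiplicative.ofAdd 1) * Coprod.inl x', ?_, ?_⟩
      · show _ ∈ K
        rw [hK, map_mul, map_mul, Equiv.Perm.mul_apply, Equiv.Perm.mul_apply, hΦl, hΦl, hΦr, hsm]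
        have : t (x' : F ⧸ S) = ((y'⁻¹ : F) : F ⧸ S) := Equiv.swap_apply_left _ _
        rw [this]
        show ((y' * y'⁻¹ : F) : F ⧸ S) = ω
        rw [mul_inv_cancel]
      · rw [map_mul, map_mul, hTl, hTl, hTr]
        exact hz.symm
  intro hcon
  obtain ⟨z, hz, hzx⟩ := hle hcon
  have h1 : z = Coprod.inl x' := by
    apply hinj
    rw [hzx, hTl]
  have h2 : Φ z ω = ω := hz
  rw [h1, hΦl, hsm] at h2
  exact hxω h2

/-- **Extension lemma**. -/
lemma extend (hfree : ∀ H : Subgroup G, H.FG → IsFreeGroup H) (hG : ℵ₀ < #G) (U : Set G)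
    (hU : #U < #G) (x y : G) (hx : x ∉ Subgroup.closure U) :
    ∃ T : Set G, T.Finite ∧ x ∉ Subgroup.closure (U ∪ T) ∧
      y ∈ Subgroup.closure (insert x (U ∪ T)) := by
  classical
  by_cases hy : y ∈ Subgroup.closure U
  · refine ⟨∅, Set.finite_empty, by rwa [Set.union_empty], ?_⟩
    rw [Set.union_empty]
    exact Subgroup.closure_mono (Set.subset_insert _ _) hy
  · -- the bad set
    let U' : Set G := insert x (insert y U)
    have hU' : #U' < #G := by
      have h1 : #(insert y U : Set G) ≤ #U + 1 := Cardinal.mk_insert_le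
      have h2 : #U' ≤ #(insert y U : Set G) + 1 := Cardinal.mk_insert_le
      have h3 : #U + 1 + 1 < #G := by
        have h4 : (1 : Cardinal) < #G := one_lt_aleph0.trans hG
        exact add_lt_of_lt hG.le (add_lt_of_lt hG.le hU h4) h4
      exact (h2.trans (add_le_add_left h1 1)).trans_lt h3
    let B : Set G := ⋃ A : Finset U', DepSet (Subgroup.closure ((fun a : U' => (a : G)) '' (A : Set U')))
    have hB : #B < #G := by
      have h1 : #B ≤ Cardinal.sum (fun A : Finset U' =>
        #(DepSet (Subgroup.closure ((fun a : U' => (a : G)) '' (A : Set U'))))) :=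
        Cardinal.mk_iUnion_le_sum_mk
      have h2 : Cardinal.sum (fun A : Finset U' =>
        #(DepSet (Subgroup.closure ((fun a : U' => (a : G)) '' (A : Set U'))))) ≤
          Cardinal.sum (fun A : Finset U' => ℵ₀) := by
        apply Cardinal.sum_le_sum
        intro A
        rw [Cardinal.le_aleph0_iff_set_countable]
        exact depSet_countable hfree _ ⟨A.image (fun a : U' => (a : G)), by rw [Finset.coe_image]⟩
      have h3 : Cardinal.sum (fun A : Finset U' => (ℵ₀ : Cardinal.{u})) < #G := by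
        rw [Cardinal.sum_const']
        apply mul_lt_of_lt hG.le _ hG
        rcases finite_or_infinite U' with hf | hi
        · exact (Cardinal.lt_aleph0_of_finite _).trans hG
        · rw [Cardinal.mk_finset_of_infinite]
          exact hU'
      exact (h1.trans h2).trans_lt h3
    obtain ⟨g, hg⟩ : ∃ g, g ∉ B := by
      by_contra hcon
      push Not at hcon
      have : B = Set.univ := Set.eq_univ_of_forall hcon
      rw [this, Cardinal.mk_univ] at hB
      exact lt_irrefl _ hB
    have hg' : ∀ A : Finset G, (A : Set G) ⊆ U' → g ∉ DepSet (Subgroup.closure (A : Set G)) := by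
      intro A hA hcon
      apply hg
      rw [Set.mem_iUnion]
      refine ⟨A.subtype (· ∈ U'), ?_⟩
      have : (fun a : U' => (a : G)) '' ((A.subtype (· ∈ U') : Finset U') : Set U') = (A : Set G) := by
        ext a
        simp only [Set.mem_image, Finset.mem_coe, Finset.mem_subtype]
        constructor
        · rintro ⟨a, ha, rfl⟩
          exact ha
        · intro ha
          exact ⟨⟨a, hA ha⟩, ha, rfl⟩
      rw [this]
      exact hcon
    refine ⟨{g, y * g * x}, by simp, ?_, ?_⟩
    · intro hcon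
      obtain ⟨T, hT, hxT⟩ := exists_finset_closure hcon
      let T₁ : Finset G := T.filter (· ∈ U)
      have hT₁ : (T₁ : Set G) ⊆ U := by
        intro a ha
        exact (Finset.mem_filter.1 ha).2
      let T₂ : Finset G := insert x (insert y T₁)
      have hT₂ : (T₂ : Set G) ⊆ U' := by
        intro a ha
        have ha' : a = x ∨ a = y ∨ a ∈ T₁ := by simpa [T₂] using ha
        rcases ha' with rfl | rfl | ha
        · exact Set.mem_insert _ _
        · exact Set.mem_insert_of_mem _ (Set.mem_insert _ _)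
        · exact Set.mem_insert_of_mem _ (Set.mem_insert_of_mem _ (hT₁ ha))
      refine succ_step (Subgroup.closure (T₂ : Set G)) (Subgroup.closure (T₁ : Set G))
        (Subgroup.closure_mono (by
          intro a ha
          simp only [T₂, Finset.coe_insert]
          exact Set.mem_insert_of_mem _ (Set.mem_insert_of_mem _ ha)))
        (x := x) (y := y) (g := g) (Subgroup.subset_closure (by simp [T₂]))
        (Subgroup.subset_closure (by simp [T₂]))
        (fun h => hx (Subgroup.closure_mono hT₁ h)) (fun h => hy (Subgroup.closure_mono hT₁ h))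
        (hg' T₂ hT₂) ?_
      refine (Subgroup.closure_le _).2 ?_ hxT
      intro a ha
      rcases hT ha with h | h
      · apply Subgroup.subset_closure
        left
        exact Subgroup.subset_closure (Finset.mem_filter.2 ⟨ha, h⟩)
      · exact Subgroup.subset_closure (Or.inr h)
    · have h1 : g ∈ Subgroup.closure (insert x (U ∪ {g, y * g * x})) :=
        Subgroup.subset_closure (by simp)
      have h2 : y * g * x ∈ Subgroup.closure (insert x (U ∪ {g, y * g * x})) :=
        Subgroup.subset_closure (by simp)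
      have h3 : x ∈ Subgroup.closure (insert x (U ∪ {g, y * g * x})) :=
        Subgroup.subset_closure (by simp)
      have h4 : y * g * x * x⁻¹ * g⁻¹ = y := by group
      have h5 := Subgroup.mul_mem _ (Subgroup.mul_mem _ h2 (Subgroup.inv_mem _ h3))
        (Subgroup.inv_mem _ h1)
      rwa [h4] at h5

open Classical in
/-- the set of new generators added at a stage -/
noncomputable def stp (x y : G) (U : Set G) : Set G :=
  if h : ∃ T : Set G, T.Finite ∧ x ∉ Subgroup.closure (U ∪ T) ∧
      y ∈ Subgroup.closure (insert x (U ∪ T)) then h.choose else ∅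

lemma stp_finite (x y : G) (U : Set G) : (stp x y U).Finite := by
  unfold stp
  split_ifs with h
  · exact h.choose_spec.1
  · exact Set.finite_empty

lemma stp_spec {x y : G} {U : Set G} (h : ∃ T : Set G, T.Finite ∧ x ∉ Subgroup.closure (U ∪ T) ∧
      y ∈ Subgroup.closure (insert x (U ∪ T))) :
    x ∉ Subgroup.closure (U ∪ stp x y U) ∧ y ∈ Subgroup.closure (insert x (U ∪ stp x y U)) := by
  unfold stp
  rw [dif_pos h]
  exact h.choose_spec.2

section recursion

variable {I : Type u} [LinearOrder I] [WellFoundedLT I]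

/-- the sequence of new generators -/
noncomputable def Tq (x : G) (e : I → G) : I → Set G :=
  (wellFounded_lt (α := I)).fix (fun i rec => stp x (e i) (⋃ j : Set.Iio i, rec j.1 j.2))

/-- the generators added before stage `i` -/
noncomputable def Uq (x : G) (e : I → G) (i : I) : Set G := ⋃ j : Set.Iio i, Tq x e j.1

lemma Tq_eq (x : G) (e : I → G) (i : I) : Tq x e i = stp x (e i) (Uq x e i) := by
  unfold Uq Tq
  rw [WellFounded.fix_eq]

lemma Tq_subset_Uq (x : G) (e : I → G) {i j : I} (h : j < i) : Tq x e j ⊆ Uq x e i :=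
  Set.subset_iUnion (fun j : Set.Iio i => Tq x e j.1) ⟨j, h⟩

lemma Uq_mono (x : G) (e : I → G) {i j : I} (h : j ≤ i) : Uq x e j ⊆ Uq x e i := by
  intro a ha
  obtain ⟨⟨k, hk⟩, hak⟩ := Set.mem_iUnion.1 ha
  exact Tq_subset_Uq x e (lt_of_lt_of_le hk h) hak

lemma W_mono (x : G) (e : I → G) {i j : I} (h : j ≤ i) :
    Uq x e j ∪ Tq x e j ⊆ Uq x e i ∪ Tq x e i := by
  rcases h.eq_or_lt with rfl | h
  · exact le_rfl
  · exact Set.union_subset ((Uq_mono x e h.le).trans Set.subset_union_left)
      ((Tq_subset_Uq x e h).trans Set.subset_union_left)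

/-- Main recursion. -/
lemma main_rec (x : G) (hx1 : x ≠ 1) (e : I → G)
    (hext : ∀ i : I, x ∉ Subgroup.closure (Uq x e i) → ∃ T : Set G, T.Finite ∧
      x ∉ Subgroup.closure (Uq x e i ∪ T) ∧ e i ∈ Subgroup.closure (insert x (Uq x e i ∪ T)))
    (i : I) : x ∉ Subgroup.closure (Uq x e i ∪ Tq x e i) ∧
      e i ∈ Subgroup.closure (insert x (Uq x e i ∪ Tq x e i)) := by
  induction i using WellFoundedLT.induction with
  | ind i ih =>
    have hxU : x ∉ Subgroup.closure (Uq x e i) := by
      rcases isEmpty_or_nonempty (Set.Iio i) with he | hne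
      · have : Uq x e i = ∅ := Set.iUnion_of_empty _
        rw [this, Subgroup.closure_empty]
        simpa using hx1
      · intro hcon
        have hle : Subgroup.closure (Uq x e i) ≤
            ⨆ j : Set.Iio i, Subgroup.closure (Uq x e j.1 ∪ Tq x e j.1) := by
          rw [Subgroup.closure_le]
          intro a ha
          obtain ⟨j, haj⟩ := Set.mem_iUnion.1 ha
          exact (le_iSup (fun j : Set.Iio i => Subgroup.closure (Uq x e j.1 ∪ Tq x e j.1)) j)
            (Subgroup.subset_closure (Or.inr haj))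
        have hdir : Directed (· ≤ ·)
            (fun j : Set.Iio i => Subgroup.closure (Uq x e j.1 ∪ Tq x e j.1)) := by
          have hm : Monotone (fun j : Set.Iio i => Subgroup.closure (Uq x e j.1 ∪ Tq x e j.1)) :=
            fun j k hjk => Subgroup.closure_mono (W_mono x e hjk)
          exact hm.directed_le
        have h1 := hle hcon
        rw [Subgroup.mem_iSup_of_directed hdir] at h1
        obtain ⟨j, hj⟩ := h1
        exact (ih j.1 j.2).1 hj
    rw [Tq_eq]
    exact stp_spec (hext i hxU)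

lemma exists_M₀ (x : G) (hx1 : x ≠ 1) (e : I → G) (he : Surjective e)
    (hext : ∀ i : I, x ∉ Subgroup.closure (Uq x e i) → ∃ T : Set G, T.Finite ∧
      x ∉ Subgroup.closure (Uq x e i ∪ T) ∧ e i ∈ Subgroup.closure (insert x (Uq x e i ∪ T))) :
    ∃ M₀ : Subgroup G, x ∉ M₀ ∧ ∀ K : Subgroup G, M₀ ≤ K → x ∈ K → K = ⊤ := by
  have hI : Nonempty I := by
    obtain ⟨i, _⟩ := he 1
    exact ⟨i⟩
  refine ⟨⨆ j : I, Subgroup.closure (Uq x e j ∪ Tq x e j), ?_, ?_⟩
  · intro h1
    have hdir : Directed (· ≤ ·) (fun j : I => Subgroup.closure (Uq x e j ∪ Tq x e j)) := by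
      have hm : Monotone (fun j : I => Subgroup.closure (Uq x e j ∪ Tq x e j)) :=
        fun j k hjk => Subgroup.closure_mono (W_mono x e hjk)
      exact hm.directed_le
    rw [Subgroup.mem_iSup_of_directed hdir] at h1
    obtain ⟨j, hj⟩ := h1
    exact (main_rec x hx1 e hext j).1 hj
  · intro K hK hxK
    rw [eq_top_iff]
    intro y _
    obtain ⟨i, rfl⟩ := he y
    have h1 := (main_rec x hx1 e hext i).2
    refine (Subgroup.closure_le K).2 ?_ h1
    intro a ha
    rcases ha with rfl | ha
    · exact hxK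
    · exact hK ((le_iSup (fun j : I => Subgroup.closure (Uq x e j ∪ Tq x e j)) i)
        (Subgroup.subset_closure ha))

end recursion

/-- The uncountable case. -/
theorem exists_of_uncountable (hfree : ∀ H : Subgroup G, H.FG → IsFreeGroup H) (hG : ℵ₀ < #G)
    (x : G) (hx1 : x ≠ 1) :
    ∃ M₀ : Subgroup G, x ∉ M₀ ∧ ∀ K : Subgroup G, M₀ ≤ K → x ∈ K → K = ⊤ := by
  have hI : #(#G).ord.ToType = #G := by simp
  obtain ⟨e⟩ := Cardinal.eq.1 hI
  refine exists_M₀ x hx1 e e.surjective ?_
  intro i hxi
  refine extend hfree hG _ ?_ x (e i) hxi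
  have h1 : #(Uq x e i) ≤ Cardinal.sum (fun j : Set.Iio i => #(Tq x e j.1)) :=
    Cardinal.mk_iUnion_le_sum_mk
  have h2 : Cardinal.sum (fun j : Set.Iio i => #(Tq x e j.1)) ≤
      Cardinal.sum (fun j : Set.Iio i => ℵ₀) := by
    apply Cardinal.sum_le_sum
    intro j
    rw [Cardinal.le_aleph0_iff_set_countable, Tq_eq]
    exact (stp_finite _ _ _).countable
  have h3 : Cardinal.sum (fun j : Set.Iio i => (ℵ₀ : Cardinal.{u})) < #G := by
    rw [Cardinal.sum_const']
    apply mul_lt_of_lt hG.le _ hG
    simpa using mk_Iio_lt i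
  exact (h1.trans h2).trans_lt h3

end Pool.Agent.Helper310.Recursion
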