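import Pool.Agent.Helper310.SchedDefs

set_option autoImplicit false

namespace Pool.Agent.Helper310.Sched

open Finset

/-- run lengths of job `j` visible up to time `t` -/
def runs {m n : ℕ} (σ : Schedule m n) (j : Fin n) (t : ℝ) : Set ℝ :=
  {x | x = 0 ∨ ∃ (u : ℝ) (i : Fin m) (s : ℝ), u ≤ t ∧ σ u i = some (j, s) ∧ x = u - s}

lemma runs_nonempty {m n : ℕ} (σ : Schedule m n) (j : Fin n) (t : ℝ) : (runs σ j t).Nonempty :=
  ⟨0, Or.inl rfl⟩

/-- longest run of `j` up to time `t` -/
noncomputable def vol {m n : ℕ} (σ : Schedule m n) (j : Fin n) (t : ℝ) : ℝ := sSup (runs σ j t)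

section

variable {m n : ℕ} {elig : Fin n → Finset (Fin m)} {p : Fin n → ℝ} {σ : Schedule m n}

lemma runs_bdd (hσ : IsSchedule elig p σ) (j : Fin n) (t : ℝ) : BddAbove (runs σ j t) := by
  refine ⟨max t 0, ?_⟩
  rintro x (rfl | ⟨u, i, s, hu, h, rfl⟩)
  · exact le_max_right _ _
  · have := (hσ.start_le h).1
    exact le_max_of_le_left (by linarith)

lemma vol_nonneg (hσ : IsSchedule elig p σ) (j : Fin n) (t : ℝ) : 0 ≤ vol σ j t :=
  le_csSup (runs_bdd hσ j t) (Or.inl rfl)

lemma le_vol (hσ : IsSchedule elig p σ) {j : Fin n} {t u : ℝ} {i : Fin m} {s : ℝ} (hu : u ≤ t)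
    (h : σ u i = some (j, s)) : u - s ≤ vol σ j t :=
  le_csSup (runs_bdd hσ j t) (Or.inr ⟨u, i, s, hu, h, rfl⟩)

lemma vol_le {j : Fin n} {t x : ℝ} (hx : 0 ≤ x)
    (h : ∀ u i s, u ≤ t → σ u i = some (j, s) → u - s ≤ x) : vol σ j t ≤ x := by
  apply csSup_le (runs_nonempty σ j t)
  rintro y (rfl | ⟨u, i, s, hu, h', rfl⟩)
  · exact hx
  · exact h u i s hu h'

lemma vol_mono (hσ : IsSchedule elig p σ) (j : Fin n) {t t' : ℝ} (h : t ≤ t') :
    vol σ j t ≤ vol σ j t' :=
  vol_le (vol_nonneg hσ j t') fun _ _ _ hu hs => le_vol hσ (hu.trans h) hs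

lemma vol_zero (hσ : IsSchedule elig p σ) (j : Fin n) : vol σ j 0 = 0 := by
  apply le_antisymm _ (vol_nonneg hσ j 0)
  apply vol_le le_rfl
  intro u i s hu h
  have := hσ.start_le h
  linarith

lemma vol_congr {σ' : Schedule m n} {j : Fin n} {t : ℝ} (h : ∀ u ≤ t, σ' u = σ u) :
    vol σ' j t = vol σ j t := by
  have : runs σ' j t = runs σ j t := by
    ext x
    constructor
    · rintro (rfl | ⟨u, i, s, hu, h', rfl⟩)
      · exact Or.inl rfl
      · exact Or.inr ⟨u, i, s, hu, by rw [← h u hu]; exact h', rfl⟩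
    · rintro (rfl | ⟨u, i, s, hu, h', rfl⟩)
      · exact Or.inl rfl
      · exact Or.inr ⟨u, i, s, hu, by rw [h u hu]; exact h', rfl⟩
  unfold vol
  rw [this]

/-- A job whose running time exceeds its longest run so far is not completed. -/
lemma not_completed (hσ : IsSchedule elig p σ) {q : Fin n → ℝ} {j : Fin n} {t : ℝ}
    (hq : vol σ j t < q j) : ¬ CompletedBy σ q j t := by
  rintro ⟨i, s, hs, h⟩
  have h0 := vol_nonneg hσ j t
  obtain ⟨x, hx1, hx2⟩ := exists_between hq
  have h1 := h (s + x) (by linarith) (by linarith)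
  have h2 := le_vol hσ (t := t) (by linarith) h1
  linarith

lemma vol_le_time (hσ : IsSchedule elig p σ) (j : Fin n) {t : ℝ} (ht : 0 ≤ t) :
    vol σ j t ≤ t := by
  apply vol_le ht
  intro u i s hu h
  have := (hσ.start_le h).1
  linarith

/-- disjoint closed intervals inside an interval -/
lemma sum_intervals {ι : Type*} (S : Finset ι) (l r : ι → ℝ) {t t' : ℝ}
    (hlr : ∀ j ∈ S, l j ≤ r j) (hl : ∀ j ∈ S, t ≤ l j) (hr : ∀ j ∈ S, r j ≤ t') (htt : t ≤ t')
    (hd : ∀ j ∈ S, ∀ k ∈ S, ∀ x, l j ≤ x → x ≤ r j → l k ≤ x → x ≤ r k → j = k) :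
    ∑ j ∈ S, (r j - l j) ≤ t' - t := by
  have h1 : MeasureTheory.volume (⋃ j ∈ S, Set.Icc (l j) (r j)) =
      ∑ j ∈ S, MeasureTheory.volume (Set.Icc (l j) (r j)) := by
    apply MeasureTheory.measure_biUnion_finset
    · intro j hj k hk hjk
      rw [Function.onFun, Set.disjoint_left]
      intro x hx hx'
      exact hjk (hd j hj k hk x hx.1 hx.2 hx'.1 hx'.2)
    · intro j _
      exact measurableSet_Icc
  have h2 : MeasureTheory.volume (⋃ j ∈ S, Set.Icc (l j) (r j)) ≤
      MeasureTheory.volume (Set.Icc t t') := by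
    apply MeasureTheory.measure_mono
    intro x hx
    simp only [Set.mem_iUnion] at hx
    obtain ⟨j, hj, hx⟩ := hx
    exact ⟨(hl j hj).trans hx.1, hx.2.trans (hr j hj)⟩
  rw [h1, Real.volume_Icc] at h2
  have h3 : ∑ j ∈ S, MeasureTheory.volume (Set.Icc (l j) (r j)) =
      ENNReal.ofReal (∑ j ∈ S, (r j - l j)) := by
    rw [ENNReal.ofReal_sum_of_nonneg (fun j hj => sub_nonneg.2 (hlr j hj))]
    apply Finset.sum_congr rfl
    intro j _
    rw [Real.volume_Icc]
  rw [h3] at h2
  exact (ENNReal.ofReal_le_ofReal_iff (sub_nonneg.2 htt)).1 h2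

/-- **Increment lemma.** -/
lemma vol_increment (hσ : IsSchedule elig p σ) (S : Finset (Fin n)) (U : Finset (Fin m))
    (hSU : ∀ j ∈ S, elig j ⊆ U) {t t' : ℝ} (ht : 0 ≤ t) (htt : t ≤ t') :
    ∑ j ∈ S, vol σ j t' ≤ ∑ j ∈ S, vol σ j t + (U.card : ℝ) * (t' - t) := by
  classical
  apply le_of_forall_pos_le_add
  intro ε hε
  let η : ℝ := ε / (n + 1)
  have hη : 0 < η := div_pos hε (by positivity)
  let S' := S.filter (fun j => vol σ j t + η < vol σ j t')
  have hex : ∀ j : S', ∃ (l u : ℝ) (i : Fin m) (s : ℝ),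
      (t ≤ l ∧ l ≤ u ∧ u ≤ t' ∧ vol σ j t' - vol σ j t - η ≤ u - l ∧ i ∈ U ∧
        ∀ x, l ≤ x → x ≤ u → σ x i = some ((j : Fin n), s)) := by
    rintro ⟨j, hj⟩
    rw [mem_filter] at hj
    have h1 : vol σ j t' - η < sSup (runs σ j t') := by
      show _ < vol σ j t'
      linarith
    obtain ⟨x, hx, hx2⟩ := exists_lt_of_lt_csSup (runs_nonempty σ j t') h1
    have h0 := vol_nonneg hσ j t
    rcases hx with rfl | ⟨u, i, s, hu, h', rfl⟩
    · linarith
    · have hut : t < u := by
        by_contra hcon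
        have := le_vol hσ (not_lt.1 hcon) h'
        linarith
      refine ⟨max s t, u, i, s, le_max_right _ _,
        max_le (hσ.start_le h').2 hut.le, hu, ?_, hSU j hj.1 (hσ.eligible h'), ?_⟩
      · show vol σ j t' - vol σ j t - η ≤ _
        rcases le_total t s with hts | hst
        · rw [max_eq_left hts]
          linarith
        · rw [max_eq_right hst]
          have h3 := hσ.run h' t hst hut.le
          have h4 := le_vol hσ le_rfl h3
          linarith
      · intro x hx1 hx2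
        exact hσ.run h' x ((le_max_left _ _).trans hx1) hx2
  choose l u i s h1 h2 h3 h4 h5 h6 using hex
  have hA : ∑ j : S', (u j - l j) ≤ (U.card : ℝ) * (t' - t) := by
    rw [← Finset.sum_fiberwise_of_maps_to (s := univ) (t := U) (g := i) (fun j _ => h5 j)]
    rw [← nsmul_eq_mul, ← Finset.sum_const]
    apply Finset.sum_le_sum
    intro w _
    apply sum_intervals _ l u (fun j _ => h2 j) (fun j _ => h1 j) (fun j _ => h3 j) htt
    intro j hj k hk x hx1 hx2 hx3 hx4
    rw [mem_filter] at hj hk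
    have e1 := h6 j x hx1 hx2
    have e2 := h6 k x hx3 hx4
    rw [hj.2] at e1
    rw [hk.2, e1] at e2
    simp only [Option.some_inj, Prod.mk.injEq] at e2
    exact Subtype.ext e2.1
  have hB : ∑ j ∈ S, (vol σ j t' - vol σ j t) ≤ ∑ j : S', (u j - l j) + n * η := by
    have hB1 : ∑ j ∈ S, (vol σ j t' - vol σ j t) ≤
        ∑ j ∈ S, ((if j ∈ S' then (vol σ j t' - vol σ j t - η) else 0) + η) := by
      apply Finset.sum_le_sum
      intro j hj
      by_cases hj' : j ∈ S'
      · rw [if_pos hj']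
        linarith
      · rw [if_neg hj']
        have : ¬ (vol σ j t + η < vol σ j t') := fun h => hj' (mem_filter.2 ⟨hj, h⟩)
        linarith
    have hB2 : ∑ j ∈ S, (if j ∈ S' then (vol σ j t' - vol σ j t - η) else 0) =
        ∑ j : S', (vol σ j t' - vol σ j t - η) := by
      rw [← Finset.sum_filter]
      have : S.filter (fun j => j ∈ S') = S' := by
        ext j
        simp only [mem_filter, S']
        tauto
      rw [this, ← Finset.sum_coe_sort S' (fun j => vol σ j t' - vol σ j t - η)]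
    have hB3 : ∑ j : S', (vol σ j t' - vol σ j t - η) ≤ ∑ j : S', (u j - l j) :=
      Finset.sum_le_sum fun j _ => h4 j
    have hB4 : ∑ j ∈ S, η ≤ n * η := by
      rw [Finset.sum_const, nsmul_eq_mul]
      apply mul_le_mul_of_nonneg_right _ hη.le
      have := Finset.card_le_univ S
      rw [Fintype.card_fin] at this
      exact_mod_cast this
    rw [Finset.sum_add_distrib, hB2] at hB1
    linarith
  have hC : (n : ℝ) * η ≤ ε := by
    show (n : ℝ) * (ε / (n + 1)) ≤ ε
    rw [mul_div_assoc', div_le_iff₀ (by positivity)]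
    nlinarith
  rw [Finset.sum_sub_distrib] at hB
  linarith

end

end Pool.Agent.Helper310.Sched
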