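import Pool.Agent.Helper310.SchedOffline
import Pool.Agent.Helper310.SchedVol

set_option autoImplicit false

namespace Pool.Agent.Helper310.Sched

open Finset

section

variable {m n : ℕ}

/-- jobs all of whose eligible machines are in `U` -/
def ins (elig : Fin n → Finset (Fin m)) (U : Finset (Fin m)) : Finset (Fin n) :=
  univ.filter (fun j => elig j ⊆ U)

lemma mem_ins {elig : Fin n → Finset (Fin m)} {U : Finset (Fin m)} {j : Fin n} :
    j ∈ ins elig U ↔ elig j ⊆ U := by simp [ins]

lemma ins_mono {elig : Fin n → Finset (Fin m)} {U U' : Finset (Fin m)} (h : U' ⊆ U) :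
    ins elig U' ⊆ ins elig U := by
  intro j hj
  rw [mem_ins] at hj ⊢
  exact hj.trans h

/-- total volume inside `U` -/
noncomputable def TT (elig : Fin n → Finset (Fin m)) (x : Fin n → ℝ) (U : Finset (Fin m)) : ℝ :=
  ∑ j ∈ ins elig U, x j

/-- volume inside `U` at `v` -/
noncomputable def DD (elig : Fin n → Finset (Fin m)) (x : Fin n → ℝ) (U : Finset (Fin m))
    (v : Fin m) : ℝ :=
  ∑ j ∈ (ins elig U).filter (fun j => v ∈ elig j), x j

lemma DD_mono {elig : Fin n → Finset (Fin m)} {x : Fin n → ℝ} (hx : ∀ j, 0 ≤ x j)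
    {U U' : Finset (Fin m)} (h : U' ⊆ U) (v : Fin m) : DD elig x U' v ≤ DD elig x U v := by
  apply Finset.sum_le_sum_of_subset_of_nonneg
  · exact Finset.filter_subset_filter _ (ins_mono h)
  · intro j _ _
    exact hx j

lemma TT_nonneg {elig : Fin n → Finset (Fin m)} {x : Fin n → ℝ} (hx : ∀ j, 0 ≤ x j)
    (U : Finset (Fin m)) : 0 ≤ TT elig x U := Finset.sum_nonneg fun j _ => hx j

/-- sum over vertices of `S` of `DD` is a weighted sum over jobs -/
lemma sum_DD (elig : Fin n → Finset (Fin m)) (x : Fin n → ℝ) (U S : Finset (Fin m)) :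
    ∑ v ∈ S, DD elig x U v = ∑ j ∈ ins elig U, ((S.filter (fun v => v ∈ elig j)).card : ℝ) * x j := by
  unfold DD
  simp_rw [Finset.sum_filter]
  rw [Finset.sum_comm]
  apply Finset.sum_congr rfl
  intro j _
  rw [← Finset.sum_filter, Finset.sum_const, nsmul_eq_mul]

lemma TT_le_sum_DD {elig : Fin n → Finset (Fin m)} (hne : ∀ j, (elig j).Nonempty)
    {x : Fin n → ℝ} (hx : ∀ j, 0 ≤ x j) (U : Finset (Fin m)) :
    TT elig x U ≤ ∑ v ∈ U, DD elig x U v := by
  rw [sum_DD]
  apply Finset.sum_le_sum
  intro j hj
  rw [mem_ins] at hj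
  obtain ⟨v, hv⟩ := hne j
  have h1 : 1 ≤ (U.filter (fun v => v ∈ elig j)).card :=
    Finset.card_pos.2 ⟨v, mem_filter.2 ⟨hj hv, hv⟩⟩
  have h2 : (1 : ℝ) ≤ ((U.filter (fun v => v ∈ elig j)).card : ℝ) := by exact_mod_cast h1
  have := hx j
  nlinarith

/-- removing the vertices of `U \ U'` lowers the total volume -/
lemma TT_drop {elig : Fin n → Finset (Fin m)} (hcard : ∀ j, (elig j).card ≤ 2)
    {x : Fin n → ℝ} (hx : ∀ j, 0 ≤ x j) {U U' : Finset (Fin m)} (h : U' ⊆ U) :
    TT elig x U' + (∑ v ∈ U \ U', DD elig x U v) / 2 ≤ TT elig x U := by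
  rw [sum_DD]
  have h1 : TT elig x U = TT elig x U' + ∑ j ∈ ins elig U \ ins elig U', x j := by
    unfold TT
    rw [add_comm, Finset.sum_sdiff (ins_mono h)]
  rw [h1]
  have h2 : ∑ j ∈ ins elig U, (((U \ U').filter (fun v => v ∈ elig j)).card : ℝ) * x j =
      ∑ j ∈ ins elig U \ ins elig U', (((U \ U').filter (fun v => v ∈ elig j)).card : ℝ) * x j := by
    rw [← Finset.sum_sdiff (ins_mono (elig := elig) h)]
    have : ∑ j ∈ ins elig U', (((U \ U').filter (fun v => v ∈ elig j)).card : ℝ) * x j = 0 := by
      apply Finset.sum_eq_zero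
      intro j hj
      rw [mem_ins] at hj
      have : (U \ U').filter (fun v => v ∈ elig j) = ∅ := by
        rw [Finset.filter_eq_empty_iff]
        intro v hv hvj
        exact (Finset.mem_sdiff.1 hv).2 (hj hvj)
      rw [this]
      simp
    rw [this, add_zero]
  rw [h2]
  have h3 : ∑ j ∈ ins elig U \ ins elig U', (((U \ U').filter (fun v => v ∈ elig j)).card : ℝ) * x j
      ≤ ∑ j ∈ ins elig U \ ins elig U', 2 * x j := by
    apply Finset.sum_le_sum
    intro j _
    apply mul_le_mul_of_nonneg_right _ (hx j)
    have h4 : ((U \ U').filter (fun v => v ∈ elig j)).card ≤ (elig j).card := by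
      apply Finset.card_le_card
      intro v hv
      exact (mem_filter.1 hv).2
    exact_mod_cast h4.trans (hcard j)
  rw [← Finset.mul_sum] at h3
  linarith

/-- A large subset with small inner degrees. -/
lemma exists_sparse {elig : Fin n → Finset (Fin m)} (hcard : ∀ j, (elig j).card = 2)
    {x : Fin n → ℝ} (hx : ∀ j, 0 ≤ x j) (U : Finset (Fin m)) {B C : ℝ}
    (hC : ∀ v ∈ U, DD elig x U v ≤ C) :
    ∃ I ⊆ U, (∀ v ∈ I, DD elig x I v ≤ B) ∧ B * ((U.card : ℝ) - I.card) ≤ C * I.card := by
  classical
  obtain ⟨I, hI, hmax⟩ := Finset.exists_max_image U.powerset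
    (fun I => B * (I.card : ℝ) - TT elig x I) ⟨∅, Finset.empty_mem_powerset U⟩
  rw [Finset.mem_powerset] at hI
  refine ⟨I, hI, ?_, ?_⟩
  · intro v hv
    have h1 := hmax (I.erase v) (Finset.mem_powerset.2 ((Finset.erase_subset v I).trans hI))
    have h2 : TT elig x I = DD elig x I v + TT elig x (I.erase v) := by
      unfold TT DD
      rw [← Finset.sum_filter_add_sum_filter_not (ins elig I) (fun j => v ∈ elig j)]
      congr 1
      apply Finset.sum_congr _ (fun _ _ => rfl)
      ext j
      simp only [mem_filter, mem_ins]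
      constructor
      · rintro ⟨h3, h4⟩ w hw
        exact Finset.mem_erase.2 ⟨fun h5 => h4 (h5 ▸ hw), h3 hw⟩
      · intro h3
        exact ⟨h3.trans (Finset.erase_subset _ _), fun h4 => (Finset.mem_erase.1 (h3 h4)).1 rfl⟩
    rw [Finset.card_erase_of_mem hv] at h1
    have h3 : 1 ≤ I.card := Finset.card_pos.2 ⟨v, hv⟩
    push_cast [Nat.cast_sub h3] at h1
    linarith
  · -- lower bound on the size
    have h1 : ∀ v ∈ U \ I, B ≤ ∑ j ∈ univ.filter (fun j => v ∈ elig j ∧ elig j ⊆ insert v I), x j := by
      intro v hv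
      rw [Finset.mem_sdiff] at hv
      have h2 := hmax (insert v I) (Finset.mem_powerset.2 (Finset.insert_subset hv.1 hI))
      rw [Finset.card_insert_of_notMem hv.2] at h2
      have h3 : TT elig x (insert v I) =
          ∑ j ∈ univ.filter (fun j => v ∈ elig j ∧ elig j ⊆ insert v I), x j + TT elig x I := by
        unfold TT
        rw [← Finset.sum_filter_add_sum_filter_not (ins elig (insert v I)) (fun j => v ∈ elig j)]
        congr 1
        · apply Finset.sum_congr _ (fun _ _ => rfl)
          ext j
          simp only [mem_filter, mem_ins, mem_univ, true_and]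
          tauto
        · apply Finset.sum_congr _ (fun _ _ => rfl)
          ext j
          simp only [mem_filter, mem_ins]
          constructor
          · rintro ⟨h3, h4⟩ w hw
            rcases Finset.mem_insert.1 (h3 hw) with h5 | h5
            · exact absurd (h5 ▸ hw) h4
            · exact h5
          · intro h3
            exact ⟨h3.trans (Finset.subset_insert _ _), fun h4 => hv.2 (h3 h4)⟩
      push_cast at h2
      linarith
    have h4 : B * ((U.card : ℝ) - I.card) ≤
        ∑ v ∈ U \ I, ∑ j ∈ univ.filter (fun j => v ∈ elig j ∧ elig j ⊆ insert v I), x j := by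
      have h5 : (U.card : ℝ) - I.card = ((U \ I).card : ℝ) := by
        rw [Finset.card_sdiff_of_subset hI, Nat.cast_sub (Finset.card_le_card hI)]
      rw [h5, mul_comm, ← nsmul_eq_mul, ← Finset.sum_const]
      exact Finset.sum_le_sum h1
    have h6 : ∑ v ∈ U \ I, ∑ j ∈ univ.filter (fun j => v ∈ elig j ∧ elig j ⊆ insert v I), x j ≤
        ∑ w ∈ I, DD elig x U w := by
      unfold DD
      simp_rw [Finset.sum_filter]
      rw [Finset.sum_comm, Finset.sum_comm (s := I)]
      have h7 : ∀ j : Fin n, ∑ v ∈ U \ I, (if v ∈ elig j ∧ elig j ⊆ insert v I then x j else 0) ≤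
          if j ∈ ins elig U then ∑ w ∈ I, (if w ∈ elig j then x j else 0) else 0 := by
        intro j
        rw [← Finset.sum_filter, Finset.sum_const, nsmul_eq_mul]
        by_cases hex : ((U \ I).filter (fun v => v ∈ elig j ∧ elig j ⊆ insert v I)).Nonempty
        · obtain ⟨v, hv⟩ := hex
          rw [mem_filter, Finset.mem_sdiff] at hv
          obtain ⟨⟨hvU, hvI⟩, hvj, hjv⟩ := hv
          have hj : j ∈ ins elig U := by
            rw [mem_ins]
            exact hjv.trans (Finset.insert_subset hvU hI)
          rw [if_pos hj, ← Finset.sum_filter, Finset.sum_const, nsmul_eq_mul]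
          apply mul_le_mul_of_nonneg_right _ (hx j)
          have h8 : ((U \ I).filter (fun v => v ∈ elig j ∧ elig j ⊆ insert v I)).card ≤ 1 := by
            rw [Finset.card_le_one]
            intro a ha b hb
            rw [mem_filter, Finset.mem_sdiff] at ha hb
            rcases Finset.mem_insert.1 (hb.2.2 ha.2.1) with h | h
            · exact h
            · exact absurd h ha.1.2
          have h9 : 1 ≤ (I.filter (fun w => w ∈ elig j)).card := by
            have h10 : ∃ w ∈ elig j, w ≠ v := by
              by_contra hcon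
              push Not at hcon
              have h11 : elig j ⊆ {v} := fun w hw => Finset.mem_singleton.2 (hcon w hw)
              have h12 := Finset.card_le_card h11
              rw [hcard j, Finset.card_singleton] at h12
              omega
            obtain ⟨w, hw, hwv⟩ := h10
            refine Finset.card_pos.2 ⟨w, mem_filter.2 ⟨?_, hw⟩⟩
            rcases Finset.mem_insert.1 (hjv hw) with h | h
            · exact absurd h hwv
            · exact h
          exact_mod_cast h8.trans h9
        · rw [Finset.not_nonempty_iff_eq_empty] at hex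
          rw [hex, Finset.card_empty, Nat.cast_zero, zero_mul]
          split_ifs
          · apply Finset.sum_nonneg
            intro w _
            split_ifs
            · exact hx j
            · exact le_rfl
          · exact le_rfl
      calc _ ≤ ∑ j : Fin n, (if j ∈ ins elig U then ∑ w ∈ I, (if w ∈ elig j then x j else 0) else 0) :=
            Finset.sum_le_sum fun j _ => h7 j
        _ = _ := by
            rw [← Finset.sum_filter]
            apply Finset.sum_congr _ (fun _ _ => rfl)
            ext j
            simp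
    have h8 : ∑ w ∈ I, DD elig x U w ≤ C * I.card := by
      rw [mul_comm, ← nsmul_eq_mul, ← Finset.sum_const]
      exact Finset.sum_le_sum fun w hw => hC w (hI hw)
    linarith

end

end Pool.Agent.Helper310.Sched
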