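import Mathlib

set_option autoImplicit false

namespace Pool.Agent.Helper310.Sched

/-- A schedule for `m` machines and `n` jobs: at time `t`, machine `i` is idle if `σ t i = none`, and
if `σ t i = some (j, s)` then it is running job `j`, in a run (attempt) started at time `s`. -/
abbrev Schedule (m n : ℕ) : Type := ℝ → Fin m → Option (Fin n × ℝ)

/-- `σ` is a feasible schedule with restarts for eligible sets `elig` and running times `p`. -/
structure IsSchedule {m n : ℕ} (elig : Fin n → Finset (Fin m)) (p : Fin n → ℝ)
    (σ : Schedule m n) : Prop where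
  /-- a run visible at time `t` has started at some time between `0` and `t` -/
  start_le : ∀ {t : ℝ} {i : Fin m} {j : Fin n} {s : ℝ}, σ t i = some (j, s) → 0 ≤ s ∧ s ≤ t
  /-- jobs only run on eligible machines -/
  eligible : ∀ {t : ℝ} {i : Fin m} {j : Fin n} {s : ℝ}, σ t i = some (j, s) → i ∈ elig j
  /-- a run is uninterrupted from its start -/
  run : ∀ {t : ℝ} {i : Fin m} {j : Fin n} {s : ℝ}, σ t i = some (j, s) →
    ∀ u : ℝ, s ≤ u → u ≤ t → σ u i = some (j, s)
  /-- at any moment a job runs on at most one machine -/
  one_machine : ∀ {t : ℝ} {i i' : Fin m} {j : Fin n} {s s' : ℝ},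
    σ t i = some (j, s) → σ t i' = some (j, s') → i = i'
  /-- a run ends (at the latest) when the job completes -/
  stops : ∀ {t : ℝ} {i : Fin m} {j : Fin n} {s : ℝ}, σ t i = some (j, s) → t < s + p j

/-- Job `j` is completed by time `T`: some run of `j` was uninterrupted for `p j` time units and
this happened by time `T`. -/
def CompletedBy {m n : ℕ} (σ : Schedule m n) (p : Fin n → ℝ) (j : Fin n) (T : ℝ) : Prop :=
  ∃ (i : Fin m) (s : ℝ), s + p j ≤ T ∧ ∀ u : ℝ, s ≤ u → u < s + p j → σ u i = some (j, s)

/-- A deterministic online algorithm for `m` machines. It knows the eligible sets `elig`. For every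
vector `p` of running times it produces a feasible schedule `run elig p`. It does not know `p`: if
along the schedule produced for `p` the vectors `p` and `p'` give the same completions up to time
`t` (every job `j` with `p j ≠ p' j` is, along this schedule, not completed by time `t`, whichever
of the two running times it has), then the algorithm behaves in the same way for `p'` and for `p`
up to time `t`. -/
structure OnlineAlg (m : ℕ) where
  /-- the schedule produced on an instance -/
  run : ∀ {n : ℕ} (_elig : Fin n → Finset (Fin m)) (_p : Fin n → ℝ), Schedule m n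
  isSchedule : ∀ {n : ℕ} (elig : Fin n → Finset (Fin m)) (p : Fin n → ℝ),
    (∀ j, (elig j).Nonempty) → (∀ j, 0 < p j) → IsSchedule elig p (run elig p)
  nonanticipating : ∀ {n : ℕ} (elig : Fin n → Finset (Fin m)) (p p' : Fin n → ℝ) (t : ℝ),
    (∀ j, (elig j).Nonempty) → (∀ j, 0 < p j) → (∀ j, 0 < p' j) →
    (∀ j, p j = p' j ∨
      (¬ CompletedBy (run elig p) p j t ∧ ¬ CompletedBy (run elig p) p' j t)) →
    ∀ u ≤ t, run elig p' u = run elig p u

/-- `A` is `c`-competitive: on every instance, for every feasible (offline) schedule `τ` which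
completes all jobs by time `T`, the algorithm completes all jobs by time `c * T`. -/
def OnlineAlg.Competitive {m : ℕ} (A : OnlineAlg m) (c : ℝ) : Prop :=
  ∀ {n : ℕ} (elig : Fin n → Finset (Fin m)) (p : Fin n → ℝ),
    (∀ j, (elig j).Nonempty) → (∀ j, 0 < p j) →
    ∀ (τ : Schedule m n) (T : ℝ), IsSchedule elig p τ → (∀ j, CompletedBy τ p j T) →
      ∀ j, CompletedBy (A.run elig p) p j (c * T)

end Pool.Agent.Helper310.Sched
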