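import Pool.Agent.Helper310.SchedAdv

set_option autoImplicit false

namespace Pool.Agent.Helper310.Sched

open Finset

section

variable {m n : ℕ}

/-- state of the adversary: jobs inside `U` still have the running time `big`, the other jobs are
assigned by `a` to machines outside `U` with loads at most `K`. -/
structure St (elig : Fin n → Finset (Fin m)) (K big : ℝ) (U : Finset (Fin m)) (p : Fin n → ℝ)
    (a : Fin n → Fin m) : Prop where
  pos : ∀ j, 0 < p j
  big : ∀ j ∈ ins elig U, p j = big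
  asg : ∀ j, j ∉ ins elig U → a j ∈ elig j ∧ a j ∉ U
  load : ∀ w, w ∉ U → ∑ j ∈ univ.filter (fun j => j ∉ ins elig U ∧ a j = w), p j ≤ K

/-- volumes at time `t` along the schedule of `A` for `p` -/
noncomputable def vv (A : OnlineAlg m) (elig : Fin n → Finset (Fin m)) (p : Fin n → ℝ) (t : ℝ)
    (j : Fin n) : ℝ := vol (A.run elig p) j t

lemma shrink (A : OnlineAlg m) {elig : Fin n → Finset (Fin m)} (hne : ∀ j, (elig j).Nonempty)
    {K big ε t : ℝ} (hε : 0 < ε) (ht : 0 ≤ t) (htb : t < big) {U U' : Finset (Fin m)}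
    {p : Fin n → ℝ} {a : Fin n → Fin m} (hS : St elig K big U p a) (hUU : U' ⊆ U)
    (hD : ∀ v ∈ U \ U', DD elig (vv A elig p t) U v + n * ε ≤ K) :
    ∃ p' a', St elig K big U' p' a' ∧ vv A elig p' t = vv A elig p t ∧
      ∀ j, j ∈ ins elig U → j ∉ ins elig U' → vv A elig p' t j < p' j := by
  classical
  have hσ := A.isSchedule elig p hne hS.pos
  let p' : Fin n → ℝ := fun j => if j ∈ ins elig U ∧ j ∉ ins elig U' then vv A elig p t j + ε else p j
  have hp'1 : ∀ j, j ∈ ins elig U → j ∉ ins elig U' → p' j = vv A elig p t j + ε :=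
    fun j h1 h2 => if_pos ⟨h1, h2⟩
  have hp'2 : ∀ j, ¬ (j ∈ ins elig U ∧ j ∉ ins elig U') → p' j = p j := fun j h => if_neg h
  have hv0 : ∀ j, 0 ≤ vv A elig p t j := fun j => vol_nonneg hσ j t
  have hpos' : ∀ j, 0 < p' j := by
    intro j
    by_cases h : j ∈ ins elig U ∧ j ∉ ins elig U'
    · rw [hp'1 j h.1 h.2]
      linarith [hv0 j]
    · rw [hp'2 j h]
      exact hS.pos j
  have hagree : ∀ u ≤ t, A.run elig p' u = A.run elig p u := by
    apply A.nonanticipating elig p p' t hne hS.pos hpos'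
    intro j
    by_cases h : j ∈ ins elig U ∧ j ∉ ins elig U'
    · right
      constructor
      · apply not_completed hσ
        rw [hS.big j h.1]
        exact lt_of_le_of_lt (vol_le_time hσ j ht) htb
      · apply not_completed hσ
        rw [hp'1 j h.1 h.2]
        unfold vv
        linarith
    · left
      exact (hp'2 j h).symm
  have hvv : vv A elig p' t = vv A elig p t := by
    funext j
    exact vol_congr hagree
  -- choice of a machine outside `U'` for each newly fixed job
  have hch : ∀ j : Fin n, ∃ w : Fin m, (j ∉ ins elig U' → w ∈ elig j ∧ w ∉ U' ∧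
      (j ∈ ins elig U → w ∈ U) ∧ (j ∉ ins elig U → w = a j)) := by
    intro j
    by_cases h1 : j ∈ ins elig U
    · by_cases h2 : j ∈ ins elig U'
      · exact ⟨a j, fun h => absurd h2 h⟩
      · have h3 := h2
        rw [mem_ins, Finset.not_subset] at h3
        obtain ⟨w, hw, hw'⟩ := h3
        exact ⟨w, fun _ => ⟨hw, hw', fun _ => (mem_ins.1 h1) hw, fun h => absurd h1 h⟩⟩
    · exact ⟨a j, fun _ => ⟨(hS.asg j h1).1, fun h => (hS.asg j h1).2 (hUU h),
        fun h => absurd h h1, fun _ => rfl⟩⟩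
  choose a' ha' using hch
  refine ⟨p', a', ⟨hpos', ?_, ?_, ?_⟩, hvv, ?_⟩
  · intro j hj
    rw [hp'2 j (fun h => h.2 hj)]
    exact hS.big j (ins_mono hUU hj)
  · intro j hj
    exact ⟨(ha' j hj).1, (ha' j hj).2.1⟩
  · intro w hw
    by_cases hwU : w ∈ U
    · -- newly dropped vertex
      have h1 : ∑ j ∈ univ.filter (fun j => j ∉ ins elig U' ∧ a' j = w), p' j ≤
          ∑ j ∈ (ins elig U).filter (fun j => w ∈ elig j), (vv A elig p t j + ε) := by
        have h2 : ∀ j ∈ univ.filter (fun j => j ∉ ins elig U' ∧ a' j = w),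
            p' j = vv A elig p t j + ε ∧ j ∈ (ins elig U).filter (fun j => w ∈ elig j) := by
          intro j hj
          simp only [mem_filter, mem_univ, true_and] at hj
          obtain ⟨hj1, hj2⟩ := hj
          have h3 : j ∈ ins elig U := by
            by_contra hcon
            have h4 := (ha' j hj1).2.2.2 hcon
            have h5 := (hS.asg j hcon).2
            rw [← h4, hj2] at h5
            exact h5 hwU
          refine ⟨hp'1 j h3 hj1, mem_filter.2 ⟨h3, ?_⟩⟩
          rw [← hj2]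
          exact (ha' j hj1).1
        rw [Finset.sum_congr rfl (fun j hj => (h2 j hj).1)]
        apply Finset.sum_le_sum_of_subset_of_nonneg
        · intro j hj
          exact (h2 j hj).2
        · intro j _ _
          linarith [hv0 j]
      rw [Finset.sum_add_distrib, Finset.sum_const, nsmul_eq_mul] at h1
      have h3 : (((ins elig U).filter (fun j => w ∈ elig j)).card : ℝ) * ε ≤ n * ε := by
        apply mul_le_mul_of_nonneg_right _ hε.le
        have := Finset.card_le_univ ((ins elig U).filter (fun j => w ∈ elig j))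
        rw [Fintype.card_fin] at this
        exact_mod_cast this
      have h4 := hD w (Finset.mem_sdiff.2 ⟨hwU, hw⟩)
      unfold DD at h4
      linarith
    · have h1 := hS.load w hwU
      refine le_trans (le_of_eq ?_) h1
      apply Finset.sum_congr
      · ext j
        simp only [mem_filter, mem_univ, true_and]
        constructor
        · rintro ⟨h2, h3⟩
          have h4 : j ∉ ins elig U := by
            intro h5
            have := (ha' j h2).2.2.1 h5
            rw [h3] at this
            exact hwU this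
          refine ⟨h4, ?_⟩
          rw [← (ha' j h2).2.2.2 h4]
          exact h3
        · rintro ⟨h2, h3⟩
          have h4 : j ∉ ins elig U' := fun h => h2 (ins_mono hUU h)
          refine ⟨h4, ?_⟩
          rw [(ha' j h4).2.2.2 h2]
          exact h3
      · intro j hj
        simp only [mem_filter, mem_univ, true_and] at hj
        exact hp'2 j (fun h => hj.1 h.1)
  · intro j h1 h2
    rw [hvv, hp'1 j h1 h2]
    linarith

lemma small_step (A : OnlineAlg m) {elig : Fin n → Finset (Fin m)} (hcard : ∀ j, (elig j).card = 2)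
    {K C big ε t δ : ℝ} (hε : 0 < ε) (ht : 0 ≤ t) (hδ : 0 ≤ δ) (hmδ : m * δ ≤ 1)
    (htb : t + δ < big) (hK : C + 1 + n * ε ≤ K) {U : Finset (Fin m)}
    {p : Fin n → ℝ} {a : Fin n → Fin m} (hS : St elig K big U p a)
    (hC : ∀ v ∈ U, DD elig (vv A elig p t) U v ≤ C) :
    ∃ U' ⊆ U, ∃ p' a', St elig K big U' p' a' ∧
      (∀ v ∈ U', DD elig (vv A elig p' (t + δ)) U' v ≤ C) ∧
      TT elig (vv A elig p' (t + δ)) U' + C / 2 * ((U.card : ℝ) - U'.card) ≤
        TT elig (vv A elig p t) U + U.card * δ := by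
  classical
  have hne : ∀ j, (elig j).Nonempty := fun j => Finset.card_pos.1 (by rw [hcard j]; norm_num)
  have hσ := A.isSchedule elig p hne hS.pos
  have hv0 : ∀ t j, 0 ≤ vv A elig p t j := fun t j => vol_nonneg hσ j t
  let U' := U.filter (fun v => DD elig (vv A elig p (t + δ)) U v ≤ C)
  have hUU : U' ⊆ U := Finset.filter_subset _ _
  have hUcard : (U.card : ℝ) * δ ≤ 1 := by
    have h1 : (U.card : ℝ) ≤ m := by
      have := Finset.card_le_univ U
      rw [Fintype.card_fin] at this
      exact_mod_cast this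
    exact (mul_le_mul_of_nonneg_right h1 hδ).trans hmδ
  have hinc : ∀ v ∈ U, DD elig (vv A elig p (t + δ)) U v ≤ C + 1 := by
    intro v hv
    have h1 := vol_increment hσ ((ins elig U).filter (fun j => v ∈ elig j)) U
      (fun j hj => mem_ins.1 (mem_filter.1 hj).1) ht (le_add_of_nonneg_right hδ : t ≤ t + δ)
    have h2 := hC v hv
    unfold DD vv at h2 ⊢
    have h3 : (U.card : ℝ) * (t + δ - t) = U.card * δ := by ring
    rw [h3] at h1
    linarith
  obtain ⟨p', a', h1, h2, _⟩ := shrink A hne (t := t + δ) hε (add_nonneg ht hδ) htb hS hUU (by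
    intro v hv
    have := hinc v (Finset.mem_sdiff.1 hv).1
    linarith)
  refine ⟨U', hUU, p', a', h1, ?_, ?_⟩
  · intro v hv
    rw [h2]
    exact (DD_mono (hv0 _) hUU v).trans (mem_filter.1 hv).2
  · rw [h2]
    have h3 := TT_drop (elig := elig) (fun j => (hcard j).le) (hv0 (t + δ)) hUU
    have h4 := vol_increment hσ (ins elig U) U (fun j hj => mem_ins.1 hj) ht
      (le_add_of_nonneg_right hδ : t ≤ t + δ)
    have h5 : (U.card : ℝ) * (t + δ - t) = U.card * δ := by ring
    rw [h5] at h4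
    have h6 : C * ((U.card : ℝ) - U'.card) ≤ ∑ v ∈ U \ U', DD elig (vv A elig p (t + δ)) U v := by
      have h7 : (U.card : ℝ) - U'.card = ((U \ U').card : ℝ) := by
        rw [Finset.card_sdiff_of_subset hUU, Nat.cast_sub (Finset.card_le_card hUU)]
      rw [h7, mul_comm, ← nsmul_eq_mul, ← Finset.sum_const]
      apply Finset.sum_le_sum
      intro v hv
      rw [Finset.mem_sdiff] at hv
      by_contra hcon
      exact hv.2 (mem_filter.2 ⟨hv.1, (not_le.1 hcon).le⟩)
    have h8 : TT elig (vv A elig p (t + δ)) U ≤ TT elig (vv A elig p t) U + U.card * δ := h4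
    linarith

lemma many_steps (A : OnlineAlg m) {elig : Fin n → Finset (Fin m)} (hcard : ∀ j, (elig j).card = 2)
    {K C big ε t δ : ℝ} (hε : 0 < ε) (ht : 0 ≤ t) (hδ : 0 ≤ δ) (hmδ : m * δ ≤ 1)
    (hK : C + 1 + n * ε ≤ K) {U : Finset (Fin m)}
    {p : Fin n → ℝ} {a : Fin n → Fin m} (hS : St elig K big U p a)
    (hC : ∀ v ∈ U, DD elig (vv A elig p t) U v ≤ C) (k : ℕ) (htb : t + k * δ < big) :
    ∃ U' ⊆ U, ∃ p' a', St elig K big U' p' a' ∧
      (∀ v ∈ U', DD elig (vv A elig p' (t + k * δ)) U' v ≤ C) ∧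
      TT elig (vv A elig p' (t + k * δ)) U' + C / 2 * ((U.card : ℝ) - U'.card) ≤
        TT elig (vv A elig p t) U + U.card * (k * δ) := by
  induction k with
  | zero =>
    refine ⟨U, Finset.Subset.refl U, p, a, hS, ?_, ?_⟩
    · simpa using hC
    · simp
  | succ k ih =>
    have h0 : (t + ((k + 1 : ℕ) : ℝ) * δ) = t + k * δ + δ := by push_cast; ring
    rw [h0] at htb
    obtain ⟨U₁, hU₁, p₁, a₁, h1, h2, h3⟩ := ih (by linarith)
    obtain ⟨U₂, hU₂, p₂, a₂, h4, h5, h6⟩ := small_step A hcard hε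
      (add_nonneg ht (mul_nonneg (Nat.cast_nonneg k) hδ)) hδ hmδ htb hK h1 h2
    refine ⟨U₂, hU₂.trans hU₁, p₂, a₂, h4, ?_, ?_⟩
    · rw [h0]; exact h5
    · rw [h0]
      have h7 : (U₁.card : ℝ) ≤ U.card := by exact_mod_cast Finset.card_le_card hU₁
      have h8 : (U₁.card : ℝ) * δ ≤ U.card * δ := mul_le_mul_of_nonneg_right h7 hδ
      push_cast
      linarith

/-- One round of unit length. -/
lemma round (A : OnlineAlg m) {elig : Fin n → Finset (Fin m)} (hcard : ∀ j, (elig j).card = 2)
    (hm : 0 < m) {big ε t : ℝ} (hε : 0 < ε) (hnε : n * ε ≤ 1) (ht : 0 ≤ t)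
    (htb : t + 1 < big) {U : Finset (Fin m)}
    {p : Fin n → ℝ} {a : Fin n → Fin m} (hS : St elig 10 big U p a)
    (hB : ∀ v ∈ U, DD elig (vv A elig p t) U v ≤ 1) :
    ∃ U' : Finset (Fin m), ∃ p' a', St elig 10 big U' p' a' ∧
      (∀ v ∈ U', DD elig (vv A elig p' (t + 1)) U' v ≤ 1) ∧ (U.card : ℝ) ≤ 18 * U'.card := by
  classical
  have hne : ∀ j, (elig j).Nonempty := fun j => Finset.card_pos.1 (by rw [hcard j]; norm_num)
  have hm' : (m : ℝ) ≠ 0 := by exact_mod_cast hm.ne'
  have hmd : (m : ℝ) * (1 / m) = 1 := by field_simp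
  obtain ⟨U₁, hU₁, p₁, a₁, h1, h2, h3⟩ := many_steps A hcard (K := 10) (C := 8) (big := big)
    (δ := 1 / m) hε ht (by positivity) hmd.le (by linarith) hS
    (fun v hv => (hB v hv).trans (by norm_num)) m (by rw [hmd]; exact htb)
  rw [hmd] at h2 h3
  have hσ := A.isSchedule elig p hne hS.pos
  have hσ₁ := A.isSchedule elig p₁ hne h1.pos
  have hv0 : ∀ j, 0 ≤ vv A elig p t j := fun j => vol_nonneg hσ j t
  have hv1 : ∀ j, 0 ≤ vv A elig p₁ (t + 1) j := fun j => vol_nonneg hσ₁ j _
  have h4 : TT elig (vv A elig p t) U ≤ U.card := by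
    refine (TT_le_sum_DD hne hv0 U).trans ?_
    have : ∑ v ∈ U, DD elig (vv A elig p t) U v ≤ ∑ v ∈ U, (1 : ℝ) := Finset.sum_le_sum hB
    simpa using this
  have h5 := TT_nonneg (elig := elig) hv1 U₁
  have h6 : (U.card : ℝ) ≤ 2 * U₁.card := by linarith
  obtain ⟨I, hI, hI1, hI2⟩ := exists_sparse hcard hv1 U₁ (B := 1) (C := 8) h2
  obtain ⟨p₂, a₂, h7, h8, _⟩ := shrink A hne (t := t + 1) hε (by linarith) htb h1 hI (by
    intro v hv
    have := h2 v (Finset.mem_sdiff.1 hv).1
    linarith)
  refine ⟨I, p₂, a₂, h7, ?_, by linarith⟩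
  intro v hv
  rw [h8]
  exact hI1 v hv

lemma rounds (A : OnlineAlg m) {elig : Fin n → Finset (Fin m)} (hcard : ∀ j, (elig j).card = 2)
    (hm : 0 < m) {big ε : ℝ} (hε : 0 < ε) (hnε : n * ε ≤ 1) (r : ℕ)
    (htb : (r : ℝ) < big) :
    ∃ U : Finset (Fin m), ∃ p a, St elig 10 big U p a ∧
      (∀ v ∈ U, DD elig (vv A elig p r) U v ≤ 1) ∧ (m : ℝ) ≤ 18 ^ r * U.card := by
  classical
  have hne : ∀ j, (elig j).Nonempty := fun j => Finset.card_pos.1 (by rw [hcard j]; norm_num)
  induction r with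
  | zero =>
    have hb : 0 < big := by simpa using htb
    have hins : ∀ j, j ∈ ins elig univ := fun j => mem_ins.2 (Finset.subset_univ _)
    have hSt : St elig 10 big univ (fun _ => big) (fun _ => ⟨0, hm⟩) := by
      refine ⟨fun _ => hb, fun _ _ => rfl, fun j hj => absurd (hins j) hj, fun w hw => ?_⟩
      exact absurd (mem_univ w) hw
    refine ⟨univ, fun _ => big, fun _ => ⟨0, hm⟩, hSt, ?_, by simp⟩
    intro v _
    have hσ := A.isSchedule elig (fun _ => big) hne hSt.pos
    have : DD elig (vv A elig (fun _ => big) ((0 : ℕ) : ℝ)) univ v = 0 := by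
      apply Finset.sum_eq_zero
      intro j _
      have := vol_zero hσ j
      simpa [vv] using this
    rw [this]
    norm_num
  | succ r ih =>
    push_cast at htb
    obtain ⟨U, p, a, h1, h2, h3⟩ := ih (by linarith)
    obtain ⟨U', p', a', h4, h5, h6⟩ := round A hcard hm hε hnε (Nat.cast_nonneg r) htb h1 h2
    refine ⟨U', p', a', h4, ?_, ?_⟩
    · push_cast
      exact h5
    · have h7 : (0 : ℝ) < 18 ^ r := by positivity
      calc (m : ℝ) ≤ 18 ^ r * U.card := h3
        _ ≤ 18 ^ r * (18 * U'.card) := mul_le_mul_of_nonneg_left h6 h7.le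
        _ = 18 ^ (r + 1) * U'.card := by ring

/-- The lower bound on an instance with all pairs of machines. -/
theorem lower_pairs (A : OnlineAlg m) {c : ℝ} (hA : A.Competitive c)
    {elig : Fin n → Finset (Fin m)} (hcard : ∀ j, (elig j).card = 2)
    (hall : ∀ v w : Fin m, v ≠ w → ∃ j, elig j = {v, w}) (r : ℕ)
    (hr : 2 * 18 ^ r ≤ m) : (r : ℝ) < 10 * c := by
  classical
  have hne : ∀ j, (elig j).Nonempty := fun j => Finset.card_pos.1 (by rw [hcard j]; norm_num)
  have hm : 0 < m := lt_of_lt_of_le (by positivity) hr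
  have hε : (0 : ℝ) < 1 / (n + 1) := by positivity
  have hnε : (n : ℝ) * (1 / (n + 1)) ≤ 1 := by
    rw [mul_one_div, div_le_one (by positivity)]
    linarith
  obtain ⟨U, p, a, h1, h2, h3⟩ := rounds A hcard hm (big := (r : ℝ) + 1) hε hnε r (by linarith)
  have hU : 2 ≤ U.card := by
    by_contra hcon
    have h4 : (U.card : ℝ) ≤ 1 := by exact_mod_cast (by omega : U.card ≤ 1)
    have h5 : (0 : ℝ) < 18 ^ r := by positivity
    have h6 : (m : ℝ) ≤ 18 ^ r := by nlinarith
    have h7 : ((2 * 18 ^ r : ℕ) : ℝ) ≤ m := by exact_mod_cast hr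
    push_cast at h7
    linarith
  obtain ⟨v, hv, w, hw, hvw⟩ := Finset.one_lt_card.1 (by omega : 1 < U.card)
  obtain ⟨j, hj⟩ := hall v w hvw
  have hjU : j ∈ ins elig U := by
    rw [mem_ins, hj]
    intro x hx
    rcases Finset.mem_insert.1 hx with rfl | hx
    · exact hv
    · rw [Finset.mem_singleton.1 hx]
      exact hw
  obtain ⟨p', a', h4, h5, h6⟩ := shrink A hne (t := r) hε (Nat.cast_nonneg r) (by linarith) h1
    (Finset.empty_subset U) (by
      intro v hv
      have := h2 v (Finset.mem_sdiff.1 hv).1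
      linarith)
  have hins : ∀ k, k ∉ ins elig ∅ := by
    intro k hk
    rw [mem_ins, Finset.subset_empty] at hk
    exact (hne k).ne_empty hk
  obtain ⟨τ, hτ1, hτ2⟩ := exists_offline elig h4.pos a' (fun k => (h4.asg k (hins k)).1) 10 (by
    intro w
    have h7 := h4.load w (Finset.notMem_empty w)
    refine le_trans (le_of_eq ?_) h7
    apply Finset.sum_congr _ (fun _ _ => rfl)
    ext k
    simp [hins k])
  have h8 := hA elig p' hne h4.pos τ 10 hτ1 hτ2 j
  have hσ' := A.isSchedule elig p' hne h4.pos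
  by_contra hcon
  have h9 : ¬ CompletedBy (A.run elig p') p' j r := not_completed hσ' (h6 j hjU (hins j))
  apply h9
  obtain ⟨i, s, hs, h10⟩ := h8
  exact ⟨i, s, by linarith, h10⟩

end

end Pool.Agent.Helper310.Sched
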