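import Pool.Agent.Helper310.SchedDefs

set_option autoImplicit false

namespace Pool.Agent.Helper310.Sched

open Finset

/-- start times of the list schedule of an assignment -/
noncomputable def st {m n : ℕ} (p : Fin n → ℝ) (a : Fin n → Fin m) (j : Fin n) : ℝ :=
  ∑ j' ∈ univ.filter (fun j' => j' < j ∧ a j' = a j), p j'

lemma st_nonneg {m n : ℕ} {p : Fin n → ℝ} (hp : ∀ j, 0 < p j) (a : Fin n → Fin m) (j : Fin n) :
    0 ≤ st p a j := Finset.sum_nonneg fun j' _ => (hp j').le

lemma st_le {m n : ℕ} {p : Fin n → ℝ} (hp : ∀ j, 0 < p j) (a : Fin n → Fin m) {j j' : Fin n}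
    (h : j < j') (haj : a j = a j') : st p a j + p j ≤ st p a j' := by
  unfold st
  have h1 : j ∉ univ.filter (fun k => k < j ∧ a k = a j) := by simp
  rw [add_comm, ← Finset.sum_insert h1]
  apply Finset.sum_le_sum_of_subset_of_nonneg
  · intro k hk
    rw [Finset.mem_insert] at hk
    rcases hk with rfl | hk
    · simp [h, haj]
    · simp only [mem_filter, mem_univ, true_and] at hk ⊢
      exact ⟨hk.1.trans h, hk.2.trans haj⟩
  · intro k _ _
    exact (hp k).le

lemma st_add_le {m n : ℕ} {p : Fin n → ℝ} (hp : ∀ j, 0 < p j) (a : Fin n → Fin m) (j : Fin n) :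
    st p a j + p j ≤ ∑ k ∈ univ.filter (fun k => a k = a j), p k := by
  unfold st
  have h1 : j ∉ univ.filter (fun k => k < j ∧ a k = a j) := by simp
  rw [add_comm, ← Finset.sum_insert h1]
  apply Finset.sum_le_sum_of_subset_of_nonneg
  · intro k hk
    rw [Finset.mem_insert] at hk
    rcases hk with rfl | hk
    · simp
    · simp only [mem_filter, mem_univ, true_and] at hk ⊢
      exact hk.2
  · intro k _ _
    exact (hp k).le

lemma st_unique {m n : ℕ} {p : Fin n → ℝ} (hp : ∀ j, 0 < p j) (a : Fin n → Fin m) {j j' : Fin n}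
    (haj : a j = a j') {t : ℝ} (h1 : st p a j ≤ t) (h2 : t < st p a j + p j)
    (h3 : st p a j' ≤ t) (h4 : t < st p a j' + p j') : j = j' := by
  rcases lt_trichotomy j j' with h | h | h
  · have := st_le hp a h haj
    linarith
  · exact h
  · have := st_le hp a h haj.symm
    linarith

/-- An assignment of jobs to eligible machines with all loads at most `K` is realised by a
feasible schedule completing all jobs by time `K`. -/
lemma exists_offline {m n : ℕ} (elig : Fin n → Finset (Fin m)) {p : Fin n → ℝ}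
    (hp : ∀ j, 0 < p j) (a : Fin n → Fin m) (ha : ∀ j, a j ∈ elig j) (K : ℝ)
    (hK : ∀ w, ∑ k ∈ univ.filter (fun k => a k = w), p k ≤ K) :
    ∃ τ : Schedule m n, IsSchedule elig p τ ∧ ∀ j, CompletedBy τ p j K := by
  classical
  let τ : Schedule m n := fun t i =>
    if h : ∃ j, a j = i ∧ st p a j ≤ t ∧ t < st p a j + p j then
      some (h.choose, st p a h.choose) else none
  have key : ∀ (t : ℝ) (i : Fin m) (j : Fin n) (s : ℝ), τ t i = some (j, s) ↔
      (a j = i ∧ st p a j ≤ t ∧ t < st p a j + p j) ∧ s = st p a j := by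
    intro t i j s
    constructor
    · intro h
      by_cases hex : ∃ j, a j = i ∧ st p a j ≤ t ∧ t < st p a j + p j
      · have h1 : τ t i = some (hex.choose, st p a hex.choose) := dif_pos hex
        rw [h1, Option.some_inj, Prod.mk.injEq] at h
        obtain ⟨h2, h3⟩ := h
        have h4 := hex.choose_spec
        rw [h2] at h3 h4
        exact ⟨h4, h3.symm⟩
      · have h1 : τ t i = none := dif_neg hex
        rw [h1] at h
        cases h
    · rintro ⟨h, rfl⟩
      have hex : ∃ j, a j = i ∧ st p a j ≤ t ∧ t < st p a j + p j := ⟨j, h⟩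
      have h1 : τ t i = some (hex.choose, st p a hex.choose) := dif_pos hex
      have h4 := hex.choose_spec
      have h5 : hex.choose = j :=
        st_unique hp a (h4.1.trans h.1.symm) h4.2.1 h4.2.2 h.2.1 h.2.2
      rw [h1, h5]
  refine ⟨τ, ⟨?_, ?_, ?_, ?_, ?_⟩, ?_⟩
  · intro t i j s h
    rw [key] at h
    rw [h.2]
    exact ⟨st_nonneg hp a j, h.1.2.1⟩
  · intro t i j s h
    rw [key] at h
    rw [← h.1.1]
    exact ha j
  · intro t i j s h u hu1 hu2
    rw [key] at h ⊢
    rw [h.2] at hu1
    exact ⟨⟨h.1.1, hu1, lt_of_le_of_lt hu2 h.1.2.2⟩, h.2⟩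
  · intro t i i' j s s' h h'
    rw [key] at h h'
    rw [← h.1.1, ← h'.1.1]
  · intro t i j s h
    rw [key] at h
    rw [h.2]
    exact h.1.2.2
  · intro j
    refine ⟨a j, st p a j, (st_add_le hp a j).trans (hK (a j)), ?_⟩
    intro u hu1 hu2
    rw [key]
    exact ⟨⟨rfl, hu1, hu2⟩, rfl⟩

end Pool.Agent.Helper310.Sched
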