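import Pool.Agent.Helper310.SchedOffline
import Pool.Agent.Helper310.SchedVol

set_option autoImplicit false

namespace Pool.Agent.Helper310.Sched

open Finset

section

variable {m n : ℕ}

/-- sequential start times -/
noncomputable def sq (p : Fin n → ℝ) (j : Fin n) : ℝ := st (m := 1) p (fun _ => 0) j

open Classical in
/-- sequential schedule: jobs are run one after another, job `j` on machine `pk j` -/
noncomputable def seqRun (pk : Fin n → Fin m) (p : Fin n → ℝ) : Schedule m n := fun t i =>
  if h : ∃ j, pk j = i ∧ sq p j ≤ t ∧ t < sq p j + p j then some (h.choose, sq p h.choose) else none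

lemma sq_unique {p : Fin n → ℝ} (hp : ∀ j, 0 < p j) {j j' : Fin n} {t : ℝ}
    (h1 : sq p j ≤ t) (h2 : t < sq p j + p j) (h3 : sq p j' ≤ t) (h4 : t < sq p j' + p j') :
    j = j' := st_unique hp (fun _ => (0 : Fin 1)) rfl h1 h2 h3 h4

lemma seqRun_iff (pk : Fin n → Fin m) {p : Fin n → ℝ} (hp : ∀ j, 0 < p j) (t : ℝ) (i : Fin m)
    (j : Fin n) (s : ℝ) : seqRun pk p t i = some (j, s) ↔
      (pk j = i ∧ sq p j ≤ t ∧ t < sq p j + p j) ∧ s = sq p j := by
  constructor
  · intro h
    by_cases hex : ∃ j, pk j = i ∧ sq p j ≤ t ∧ t < sq p j + p j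
    · have h1 : seqRun pk p t i = some (hex.choose, sq p hex.choose) := dif_pos hex
      rw [h1, Option.some_inj, Prod.mk.injEq] at h
      obtain ⟨h2, h3⟩ := h
      have h4 := hex.choose_spec
      rw [h2] at h3 h4
      exact ⟨h4, h3.symm⟩
    · have h1 : seqRun pk p t i = none := dif_neg hex
      rw [h1] at h
      cases h
  · rintro ⟨h, rfl⟩
    have hex : ∃ j, pk j = i ∧ sq p j ≤ t ∧ t < sq p j + p j := ⟨j, h⟩
    have h1 : seqRun pk p t i = some (hex.choose, sq p hex.choose) := dif_pos hex
    have h4 := hex.choose_spec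
    have h5 : hex.choose = j := sq_unique hp h4.2.1 h4.2.2 h.2.1 h.2.2
    rw [h1, h5]

lemma seqRun_isSchedule {elig : Fin n → Finset (Fin m)} {pk : Fin n → Fin m}
    (hpk : ∀ j, pk j ∈ elig j) {p : Fin n → ℝ} (hp : ∀ j, 0 < p j) :
    IsSchedule elig p (seqRun pk p) := by
  refine ⟨?_, ?_, ?_, ?_, ?_⟩
  · intro t i j s h
    rw [seqRun_iff pk hp] at h
    rw [h.2]
    exact ⟨st_nonneg hp _ j, h.1.2.1⟩
  · intro t i j s h
    rw [seqRun_iff pk hp] at h
    rw [← h.1.1]
    exact hpk j
  · intro t i j s h u hu1 hu2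
    rw [seqRun_iff pk hp] at h ⊢
    rw [h.2] at hu1
    exact ⟨⟨h.1.1, hu1, lt_of_le_of_lt hu2 h.1.2.2⟩, h.2⟩
  · intro t i i' j s s' h h'
    rw [seqRun_iff pk hp] at h h'
    rw [← h.1.1, ← h'.1.1]
  · intro t i j s h
    rw [seqRun_iff pk hp] at h
    rw [h.2]
    exact h.1.2.2

/-- at each time either a job is running or all jobs are finished -/
lemma seq_cases {p : Fin n → ℝ} {u : ℝ} (hu : 0 ≤ u) :
    (∃ k, sq p k ≤ u ∧ u < sq p k + p k) ∨ ∀ k, sq p k + p k ≤ u := by
  classical
  by_cases hall : ∀ k, sq p k + p k ≤ u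
  · exact Or.inr hall
  · left
    push Not at hall
    have hne : (univ.filter (fun k : Fin n => u < sq p k + p k)).Nonempty := by
      obtain ⟨k, hk⟩ := hall
      exact ⟨k, by simpa using hk⟩
    let k := (univ.filter (fun k : Fin n => u < sq p k + p k)).min' hne
    have hk : u < sq p k + p k := by
      have := Finset.min'_mem _ hne
      simpa using this
    refine ⟨k, ?_, hk⟩
    by_cases hk0 : (k : ℕ) = 0
    · have : sq p k = 0 := by
        unfold sq st
        apply Finset.sum_eq_zero
        intro j hj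
        simp only [mem_filter, mem_univ, true_and, and_true] at hj
        have h1 : (j : ℕ) < k := hj
        omega
      rw [this]
      exact hu
    · have hkn := k.2
      let k' : Fin n := ⟨(k : ℕ) - 1, by omega⟩
      have hk' : k' < k := by
        show (k : ℕ) - 1 < k
        omega
      have h1 : ¬ (u < sq p k' + p k') := by
        intro hcon
        have h2 : k' ∈ univ.filter (fun k : Fin n => u < sq p k + p k) := by simpa using hcon
        exact absurd (Finset.min'_le _ _ h2) (not_le.2 hk')
      have h3 : sq p k = sq p k' + p k' := by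
        unfold sq st
        have h4 : k' ∉ univ.filter (fun j => j < k' ∧ (0 : Fin 1) = 0) := by simp
        rw [add_comm, ← Finset.sum_insert h4]
        apply Finset.sum_congr _ (fun _ _ => rfl)
        ext j
        simp only [mem_filter, mem_univ, true_and, and_true, Finset.mem_insert]
        constructor
        · intro hj
          have hj' : (j : ℕ) < k := hj
          rcases Nat.lt_or_ge (j : ℕ) ((k : ℕ) - 1) with h | h
          · exact Or.inr h
          · left
            apply Fin.ext
            show (j : ℕ) = (k : ℕ) - 1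
            omega
        · rintro (rfl | hj)
          · exact hk'
          · exact lt_trans hj hk'
      rw [h3]
      exact not_lt.1 h1

lemma seq_completed (pk : Fin n → Fin m) {p : Fin n → ℝ} (hp : ∀ j, 0 < p j) {j : Fin n} {T : ℝ}
    (h : sq p j + p j ≤ T) : CompletedBy (seqRun pk p) p j T := by
  refine ⟨pk j, sq p j, h, ?_⟩
  intro u hu1 hu2
  rw [seqRun_iff pk hp]
  exact ⟨⟨rfl, hu1, hu2⟩, rfl⟩

lemma seq_nonanticipating (pk : Fin n → Fin m) {p p' : Fin n → ℝ} (hp : ∀ j, 0 < p j)
    (hp' : ∀ j, 0 < p' j) {t : ℝ}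
    (h : ∀ j, p j = p' j ∨
      (¬ CompletedBy (seqRun pk p) p j t ∧ ¬ CompletedBy (seqRun pk p) p' j t)) :
    ∀ u ≤ t, seqRun pk p' u = seqRun pk p u := by
  -- jobs finished by time `t` have the same running times
  have hfin : ∀ j, sq p j + p j ≤ t → p j = p' j := by
    intro j hj
    rcases h j with h1 | h1
    · exact h1
    · exact absurd (seq_completed pk hp hj) h1.1
  have hsq : ∀ j, (∀ k < j, p k = p' k) → sq p' j = sq p j := by
    intro j hj
    unfold sq st
    apply Finset.sum_congr rfl
    intro k hk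
    simp only [mem_filter, mem_univ, true_and, and_true] at hk
    exact (hj k hk).symm
  have hrun : ∀ u ≤ t, ∀ j, sq p j ≤ u → u < sq p j + p j →
      sq p' j = sq p j ∧ u < sq p j + p' j := by
    intro u hu j h1 h2
    have h3 : ∀ k < j, p k = p' k := by
      intro k hk
      apply hfin
      have := st_le hp (fun _ => (0 : Fin 1)) hk rfl
      have h4 : sq p k + p k ≤ sq p j := this
      linarith
    refine ⟨hsq j h3, ?_⟩
    rcases h j with h4 | h4
    · rw [← h4]; exact h2
    · by_contra hcon
      push Not at hcon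
      apply h4.2
      refine ⟨pk j, sq p j, hcon.trans hu, ?_⟩
      intro x hx1 hx2
      rw [seqRun_iff pk hp]
      exact ⟨⟨rfl, hx1, lt_of_lt_of_le hx2 (hcon.trans h2.le)⟩, rfl⟩
  intro u hu
  funext i
  by_cases hu0 : 0 ≤ u
  · rcases seq_cases (p := p) hu0 with ⟨k, hk1, hk2⟩ | hall
    · obtain ⟨h5, h6⟩ := hrun u hu k hk1 hk2
      by_cases hki : pk k = i
      · have e1 : seqRun pk p u i = some (k, sq p k) :=
          (seqRun_iff pk hp u i k _).2 ⟨⟨hki, hk1, hk2⟩, rfl⟩
        have e2 : seqRun pk p' u i = some (k, sq p' k) :=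
          (seqRun_iff pk hp' u i k _).2 ⟨⟨hki, by rw [h5]; exact hk1, by rw [h5]; exact h6⟩, rfl⟩
        rw [e1, e2, h5]
      · have e1 : seqRun pk p u i = none := by
          rw [Option.eq_none_iff_forall_ne_some]
          rintro ⟨j, s⟩ hjs
          rw [seqRun_iff pk hp] at hjs
          have := sq_unique hp hk1 hk2 hjs.1.2.1 hjs.1.2.2
          exact hki (this ▸ hjs.1.1)
        have e2 : seqRun pk p' u i = none := by
          rw [Option.eq_none_iff_forall_ne_some]
          rintro ⟨j, s⟩ hjs
          rw [seqRun_iff pk hp'] at hjs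
          have := sq_unique hp' (by rw [h5]; exact hk1) (by rw [h5]; exact h6) hjs.1.2.1 hjs.1.2.2
          exact hki (this ▸ hjs.1.1)
        rw [e1, e2]
    · have : p = p' := funext fun k => hfin k ((hall k).trans hu)
      rw [this]
  · have e : ∀ q : Fin n → ℝ, (∀ j, 0 < q j) → seqRun pk q u i = none := by
      intro q hq
      rw [Option.eq_none_iff_forall_ne_some]
      rintro ⟨j, s⟩ hjs
      rw [seqRun_iff pk hq] at hjs
      have := st_nonneg hq (fun _ => (0 : Fin 1)) j
      have h7 : sq q j ≤ u := hjs.1.2.1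
      exact hu0 (le_trans this h7)
    rw [e p hp, e p' hp']

lemma le_vol_of_completed {elig : Fin n → Finset (Fin m)} {p : Fin n → ℝ} {τ : Schedule m n}
    (hτ : IsSchedule elig p τ) {j : Fin n} {T : ℝ} (h : CompletedBy τ p j T) :
    p j ≤ vol τ j T := by
  obtain ⟨i, s, hs, h⟩ := h
  apply le_of_forall_lt
  intro x hx
  obtain ⟨y, hy1, hy2⟩ := exists_between hx
  by_cases hy : 0 ≤ y
  · have h1 := le_vol hτ (t := T) (by linarith) (h (s + y) (by linarith) (by linarith))
    linarith
  · have := vol_nonneg hτ j T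
    linarith

/-- The model is not vacuous: running the jobs one after another is `m`-competitive. -/
theorem exists_competitive (m : ℕ) : ∃ A : OnlineAlg m, A.Competitive (m : ℝ) := by
  classical
  let pk : ∀ {n : ℕ} (elig : Fin n → Finset (Fin m)) (h : ∀ j, (elig j).Nonempty), Fin n → Fin m :=
    fun elig h j => (h j).choose
  let A : OnlineAlg m :=
    { run := fun {n} elig p => if h : ∀ j, (elig j).Nonempty then seqRun (pk elig h) p
        else fun _ _ => none
      isSchedule := by
        intro n elig p h hp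
        simp only [dif_pos h]
        exact seqRun_isSchedule (fun j => (h j).choose_spec) hp
      nonanticipating := by
        intro n elig p p' t h hp hp' hh
        simp only [dif_pos h] at hh ⊢
        exact seq_nonanticipating _ hp hp' hh }
  refine ⟨A, ?_⟩
  intro n elig p h hp τ T hτ hT j
  have hrun : A.run elig p = seqRun (pk elig h) p := dif_pos h
  rw [hrun]
  apply seq_completed _ hp
  have h1 : sq p j + p j ≤ ∑ k, p k := by
    have h2 : sq p j + p j ≤ ∑ k ∈ univ.filter (fun k => (0 : Fin 1) = 0), p k :=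
      st_add_le hp (fun _ => (0 : Fin 1)) j
    simpa using h2
  have hT0 : 0 ≤ T := by
    obtain ⟨i, s, hs, hh⟩ := hT j
    have h2 := (hτ.start_le (hh s le_rfl (by linarith [hp j]))).1
    linarith [hp j]
  have h3 := vol_increment hτ univ univ (fun j _ => Finset.subset_univ _) le_rfl hT0
  have h4 : ∑ k, vol τ k 0 = 0 := Finset.sum_eq_zero fun k _ => vol_zero hτ k
  have h5 : ∑ k, p k ≤ ∑ k, vol τ k T :=
    Finset.sum_le_sum fun k _ => le_vol_of_completed hτ (hT k)
  rw [h4, Finset.card_univ, Fintype.card_fin, sub_zero, zero_add] at h3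
  linarith

end

end Pool.Agent.Helper310.Sched
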